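import Pool.Agent.Lib.H47C.Defs

/-! Chunk A1 of H47C (MP_ef0847_an). -/

set_option autoImplicit false

open scoped ContDiff

namespace Pool.Agent.Lib.H47C

open Pool.Agent.Lib.H14U

/-- (S) `F x - x - (1/n)(F^n x - x)` is a coboundary. Proof. With `S j x = F^[j] x - x`:
`S j (F x) - S j x = S (j+1) x - S j x - (F x - x)` (`Function.iterate_succ_apply`), telescoping sum over
`j < n` (`Finset.sum_range_sub`): `S n x - S 0 x - n (F x - x)`. -/
theorem W_identity {d : ℕ} (F : (Fin d → ℝ) → (Fin d → ℝ)) (n : ℕ) (hn : 1 ≤ n) (x : Fin d → ℝ) :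
    W F n (F x) - W F n x = (F x - x) - (n : ℝ)⁻¹ • (F^[n] x - x) := by
  have hn0 : (n : ℝ) ≠ 0 := by
    have : (1 : ℝ) ≤ n := by exact_mod_cast hn
    linarith
  have h1 : (∑ j ∈ Finset.range n, (F^[j] (F x) - F x)) - ∑ j ∈ Finset.range n, (F^[j] x - x)
      = (F^[n] x - x) - (n : ℝ) • (F x - x) := by
    rw [← Finset.sum_sub_distrib]
    have h2 : ∀ j ∈ Finset.range n, (F^[j] (F x) - F x - (F^[j] x - x)) =
        (F^[j + 1] x - F^[j] x) - (F x - x) := by
      intro j _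
      rw [Function.iterate_succ_apply]
      abel
    rw [Finset.sum_congr rfl h2, Finset.sum_sub_distrib, Finset.sum_range_sub (fun j => F^[j] x) n,
      Finset.sum_const, Finset.card_range, Function.iterate_zero_apply, ← Nat.cast_smul_eq_nsmul ℝ]
  unfold W
  have h3 : -((n : ℝ)⁻¹ • ∑ j ∈ Finset.range n, (F^[j] (F x) - F x)) -
      -((n : ℝ)⁻¹ • ∑ j ∈ Finset.range n, (F^[j] x - x)) =
      -((n : ℝ)⁻¹ • ((∑ j ∈ Finset.range n, (F^[j] (F x) - F x)) -
        ∑ j ∈ Finset.range n, (F^[j] x - x))) := by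
    rw [smul_sub]; abel
  rw [h3, h1, smul_sub, smul_smul, inv_mul_cancel₀ hn0, one_smul]
  abel

/-- (S) `W` is smooth and periodic (`iter_smooth`, `iter_comm`, `ContDiff.sum`). -/
theorem W_smooth {d : ℕ} {F G : (Fin d → ℝ) → (Fin d → ℝ)} (hS : Sys F G) (n : ℕ) :
    ContDiff ℝ ∞ (W F n) ∧ Per (W F n) := by
  constructor
  · unfold W
    refine ContDiff.neg (ContDiff.const_smul _ (ContDiff.sum fun j _ => ?_))
    exact (iter_smooth hS.smoothF j).sub contDiff_id
  · intro x k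
    unfold W
    congr 2
    refine Finset.sum_congr rfl fun j _ => ?_
    rw [iter_comm hS.comm]
    abel

end Pool.Agent.Lib.H47C
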