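import Pool.Agent.Lib.H47C.A1

/-! Chunk A3 of H47C (MP_ef0847_an). -/

set_option autoImplicit false

open scoped ContDiff

namespace Pool.Agent.Lib.H47C

open Pool.Agent.Lib.H14U

/-- (M) The displacement minus its mean is a smooth coboundary. Proof. By `Approx` choose for every `l`
some `n l ≥ 1` with `‖D^j (f_l) x‖ ≤ 1/(l+1)` for `j ≤ l`, `f_l y = (n l)⁻¹ • (F^[n l] y - y) - ρ`.
For every coordinate `i` apply `ClosedCob F` to `Ψ l x = W F (n l) x i` and
`Φ x = (F x - x - ρ) i` (smooth, periodic by `hS.comm`). By `W_identity`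
`Ψ l (F y) - Ψ l y - Φ y = - (f_l y) i`, and the derivatives of a coordinate are bounded by those of
the vector (`ContinuousLinearMap.proj i`, `ContinuousLinearMap.norm_iteratedFDeriv_comp_left` or
`ContinuousLinearMap.iteratedFDeriv_comp_left`, norm of `proj` `≤ 1`), so they are `≤ 1/(l+1) < ε` for
`l` large. Collect the solutions `Ψ₀ i` in a vector `u` (`contDiff_pi`). -/
theorem solve {d : ℕ} {F G : (Fin d → ℝ) → (Fin d → ℝ)} (hS : Sys F G) (hcl : ClosedCob F)
    (ρ : Fin d → ℝ) (ha : Approx F ρ) :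
    ∃ u : (Fin d → ℝ) → (Fin d → ℝ), ContDiff ℝ ∞ u ∧ Per u ∧
      ∀ x, F x - x - ρ = u (F x) - u x := by
  have hpos : ∀ l : ℕ, (0 : ℝ) < 1 / ((l : ℝ) + 1) := fun l => by positivity
  choose n hn1 hn using fun l : ℕ => ha l (1 / ((l : ℝ) + 1)) (hpos l)
  have hFs := hS.smoothF
  have hcoord : ∀ i : Fin d, ∃ Ψ₀ : (Fin d → ℝ) → ℝ, ContDiff ℝ ∞ Ψ₀ ∧ Per Ψ₀ ∧
      ∀ x, (F x - x - ρ) i = Ψ₀ (F x) - Ψ₀ x := by
    intro i
    refine hcl (fun l x => W F (n l) x i) (fun x => (F x - x - ρ) i) (fun l => ?_) (fun l => ?_)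
      ?_ ?_ ?_
    · exact contDiff_pi.1 (W_smooth hS (n l)).1 i
    · intro x k
      show W F (n l) (x + zv k) i = W F (n l) x i
      rw [(W_smooth hS (n l)).2 x k]
    · exact contDiff_pi.1 ((hFs.sub contDiff_id).sub contDiff_const) i
    · intro x k
      show (F (x + zv k) - (x + zv k) - ρ) i = (F x - x - ρ) i
      rw [hS.comm]
      congr 1
      abel
    · intro j ε hε
      obtain ⟨N, hN⟩ := exists_nat_gt (1 / ε)
      refine ⟨max N j, fun l hl x => ?_⟩
      have hlN : (N : ℝ) ≤ l := by exact_mod_cast le_trans (le_max_left _ _) hl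
      have hlj : j ≤ l := le_trans (le_max_right _ _) hl
      have h1 : (fun y => W F (n l) (F y) i - W F (n l) y i - (F y - y - ρ) i) =
          fun y => (-(ContinuousLinearMap.proj (R := ℝ) (φ := fun _ : Fin d => ℝ) i))
            ((n l : ℝ)⁻¹ • (F^[n l] y - y) - ρ) := by
        funext y
        have h2 := congrFun (W_identity F (n l) (hn1 l) y) i
        simp only [Pi.sub_apply, Pi.smul_apply] at h2
        simp only [ContinuousLinearMap.neg_apply, ContinuousLinearMap.proj_apply, Pi.sub_apply,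
          Pi.smul_apply]
        linarith
      rw [h1]
      have hsm : ContDiff ℝ ∞ (fun y => (n l : ℝ)⁻¹ • (F^[n l] y - y) - ρ) :=
        (((iter_smooth hFs (n l)).sub contDiff_id).const_smul _).sub contDiff_const
      have h3 := ContinuousLinearMap.norm_iteratedFDeriv_comp_left
        (-(ContinuousLinearMap.proj (R := ℝ) (φ := fun _ : Fin d => ℝ) i))
        (f := fun y => (n l : ℝ)⁻¹ • (F^[n l] y - y) - ρ) (x := x) hsm.contDiffAt
        (n := j) (by exact_mod_cast le_top)
      have h4 : ‖-(ContinuousLinearMap.proj (R := ℝ) (φ := fun _ : Fin d => ℝ) i)‖ ≤ 1 := by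
        rw [norm_neg]
        refine ContinuousLinearMap.opNorm_le_bound _ zero_le_one fun v => ?_
        rw [one_mul]
        exact norm_le_pi_norm v i
      have h5 := hn l j hlj x
      have h6 : 1 / ((l : ℝ) + 1) < ε := by
        rw [div_lt_iff₀ (by positivity)]
        have h7 : 1 < ε * N := by
          rw [div_lt_iff₀ hε] at hN
          linarith
        nlinarith
      refine lt_of_le_of_lt h3 (lt_of_le_of_lt ?_ h6)
      calc _ ≤ 1 * (1 / ((l : ℝ) + 1)) := mul_le_mul h4 h5 (norm_nonneg _) zero_le_one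
        _ = _ := one_mul _
  choose u hu1 hu2 hu3 using hcoord
  refine ⟨fun x i => u i x, contDiff_pi.2 hu1, fun x k => ?_, fun x => ?_⟩
  · funext i
    exact hu2 i x k
  · funext i
    exact hu3 i x

end Pool.Agent.Lib.H47C
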