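import Pool.Agent.Lib.H47C.R1

/-! Chunk B0 of H47C (MP_ef0847_an). -/

set_option autoImplicit false

open scoped ContDiff

namespace Pool.Agent.Lib.H47C

open Pool.Agent.Lib.H14U

/-- (S/M) The derivatives of order `≥ 1` of the smooth conjugacy are bounded. Proof. `w x = hh x - act A x`
is smooth and periodic, so all its derivatives are bounded (`per_iteratedFDeriv`, `per_bounded`);
`act A` is (continuous) linear, its derivatives of order `≥ 1` are bounded (order 1 constant,
order `≥ 2` zero; or: `act A` is a continuous linear map, `ContinuousLinearMap.iteratedFDeriv_succ..`,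
or write the derivative of order `j ≥ 1` of `act A` as invariant under all translations because
`act A (x + c) = act A x + act A c`, so it is constant). Sum of the bounds for `j ≤ n`, at least `1`. -/
theorem hh_deriv_bounded {d : ℕ} {F : (Fin d → ℝ) → (Fin d → ℝ)} {α : Fin d → ℝ}
    {hh : (Fin d → ℝ) ≃ₜ (Fin d → ℝ)} {A B : Matrix (Fin d) (Fin d) ℤ}
    {m : Fin d → ℤ} (hc : Conj F α hh A B m) (hsm : ContDiff ℝ ∞ hh) (n : ℕ) :
    ∃ D : ℝ, 1 ≤ D ∧ ∀ j, 1 ≤ j → j ≤ n → ∀ x, ‖iteratedFDeriv ℝ j hh x‖ ≤ D := by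
  obtain ⟨a1, a2, -, -, a5, a6⟩ := act_basic A B
  obtain ⟨L, hL⟩ : ∃ L : (Fin d → ℝ) →L[ℝ] (Fin d → ℝ), ∀ x, L x = act A x := by
    refine ⟨LinearMap.toContinuousLinearMap
      { toFun := act A, map_add' := a1, map_smul' := fun t x => a2 t x }, fun x => rfl⟩
  obtain ⟨w, hw⟩ : ∃ w : (Fin d → ℝ) → (Fin d → ℝ), w = fun x => hh x - L x := ⟨_, rfl⟩
  have hws : ContDiff ℝ ∞ w := by
    rw [hw]
    exact hsm.sub L.contDiff
  have hwp : Per w := by
    intro x k
    rw [hw]
    show hh (x + zv k) - L (x + zv k) = hh x - L x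
    rw [hc.equiv, map_add, hL (zv k), a5]
    abel
  have hbd : ∀ j : ℕ, ∃ C : ℝ, 0 ≤ C ∧ ∀ x, ‖iteratedFDeriv ℝ j w x‖ ≤ C := fun j =>
    per_bounded (hws.continuous_iteratedFDeriv (m := j) (by exact_mod_cast le_top))
      (per_iteratedFDeriv hwp j)
  choose C hC0 hC using hbd
  have hLb : ∀ j, 1 ≤ j → ∀ x, ‖iteratedFDeriv ℝ j L x‖ ≤ ‖L‖ := by
    intro j hj x
    obtain ⟨i, rfl⟩ : ∃ i, j = i + 1 := ⟨j - 1, by omega⟩
    rw [← norm_iteratedFDeriv_fderiv]
    have e : fderiv ℝ L = fun _ => (L : (Fin d → ℝ) →L[ℝ] (Fin d → ℝ)) := by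
      funext y
      exact L.fderiv
    rw [e]
    rcases Nat.eq_zero_or_pos i with hi | hi
    · rw [hi, norm_iteratedFDeriv_zero]
    · rw [iteratedFDeriv_const_of_ne (by omega), Pi.zero_apply, norm_zero]
      exact norm_nonneg _
  refine ⟨1 + ‖L‖ + ∑ j ∈ Finset.range (n + 1), C j, ?_, ?_⟩
  · have h1 : 0 ≤ ∑ j ∈ Finset.range (n + 1), C j := Finset.sum_nonneg fun j _ => hC0 j
    have h2 := norm_nonneg L
    linarith
  · intro j hj1 hjn x
    have e : (hh : (Fin d → ℝ) → (Fin d → ℝ)) = w + L := by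
      funext y
      rw [hw]
      show hh y = (hh y - L y) + L y
      rw [sub_add_cancel]
    have h1 : iteratedFDeriv ℝ j hh x = iteratedFDeriv ℝ j w x + iteratedFDeriv ℝ j L x := by
      rw [e]
      exact iteratedFDeriv_add_apply (hws.contDiffAt.of_le (by exact_mod_cast le_top))
        (L.contDiff.contDiffAt.of_le (by exact_mod_cast le_top))
    rw [h1]
    refine (norm_add_le _ _).trans ?_
    have h2 : C j ≤ ∑ i ∈ Finset.range (n + 1), C i :=
      Finset.single_le_sum (fun i _ => hC0 i) (Finset.mem_range.2 (by omega))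
    have h3 := hC j x
    have h4 := hLb j hj1 x
    linarith

end Pool.Agent.Lib.H47C
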