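import Pool.Agent.Lib.H47C.Defs

/-! Chunk B1 of H47C (MP_ef0847_an). -/

set_option autoImplicit false

open scoped ContDiff

namespace Pool.Agent.Lib.H47C

open Pool.Agent.Lib.H14U

theorem b1_l1 {d : ℕ} {k : Fin d → ℤ} (hk : k ≠ 0) : 1 ≤ l1 k := by
  obtain ⟨i, hi⟩ : ∃ i, k i ≠ 0 := by
    by_contra h
    push Not at h
    exact hk (funext h)
  have h1 : (1 : ℝ) ≤ |(k i : ℝ)| := by
    have h2 : (1 : ℤ) ≤ |k i| := Int.one_le_abs hi
    exact_mod_cast h2
  exact h1.trans (Finset.single_le_sum (f := fun i => |(k i : ℝ)|) (fun i _ => abs_nonneg _)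
    (Finset.mem_univ i))

theorem b1_lin {d : ℕ} (k : Fin d → ℤ) :
    ∃ L : (Fin d → ℝ) →L[ℝ] ℝ, (∀ y, L y = dotk k y) ∧ ‖L‖ ≤ l1 k := by
  refine ⟨∑ i, (k i : ℝ) • ContinuousLinearMap.proj i, fun y => ?_, ?_⟩
  · rw [ContinuousLinearMap.sum_apply]
    rfl
  · refine (norm_sum_le _ _).trans (Finset.sum_le_sum fun i _ => ?_)
    rw [norm_smul, Real.norm_eq_abs]
    have h1 : ‖(ContinuousLinearMap.proj i : (Fin d → ℝ) →L[ℝ] ℝ)‖ ≤ 1 :=
      ContinuousLinearMap.opNorm_le_bound _ zero_le_one fun y => by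
        rw [one_mul]
        exact norm_le_pi_norm y i
    calc |(k i : ℝ)| * ‖(ContinuousLinearMap.proj i : (Fin d → ℝ) →L[ℝ] ℝ)‖ ≤ |(k i : ℝ)| * 1 :=
          mul_le_mul_of_nonneg_left h1 (abs_nonneg _)
      _ = |(k i : ℝ)| := mul_one _

theorem b1_dotk {d : ℕ} {H : (Fin d → ℝ) → (Fin d → ℝ)} (hH : ContDiff ℝ ∞ H) (k : Fin d → ℤ) :
    ContDiff ℝ ∞ (fun y => dotk k (H y)) := by
  obtain ⟨L, hL, _⟩ := b1_lin k
  have e : (fun y => dotk k (H y)) = L ∘ H := by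
    funext y
    exact (hL (H y)).symm
  rw [e]
  exact L.contDiff.comp hH

theorem b1_cos (θ : ℝ) (k : ℕ) : iteratedDeriv k (fun y : ℝ => Real.cos (2 * Real.pi * y + θ)) =
    fun y => (2 * Real.pi) ^ k * Real.cos (2 * Real.pi * y + θ + k * (Real.pi / 2)) := by
  induction k with
  | zero =>
    rw [iteratedDeriv_zero]
    funext y
    simp
  | succ k ih =>
    rw [iteratedDeriv_succ, ih]
    funext y
    have h2 : HasDerivAt (fun y : ℝ => (2 * Real.pi) ^ k *
        Real.cos (2 * Real.pi * y + θ + k * (Real.pi / 2)))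
        ((2 * Real.pi) ^ k *
          (-Real.sin (2 * Real.pi * y + θ + k * (Real.pi / 2)) * (2 * Real.pi * 1))) y := by
      have h3 : HasDerivAt (fun y : ℝ => 2 * Real.pi * y + θ + k * (Real.pi / 2))
          (2 * Real.pi * 1) y :=
        (((hasDerivAt_id y).const_mul _).add_const _).add_const _
      exact (h3.cos).const_mul _
    have h4 : Real.cos (2 * Real.pi * y + θ + ((k + 1 : ℕ) : ℝ) * (Real.pi / 2)) =
        -Real.sin (2 * Real.pi * y + θ + k * (Real.pi / 2)) := by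
      rw [← Real.cos_add_pi_div_two]
      push_cast
      ring_nf
    rw [h2.deriv, h4]
    ring

/-- (S/M) `|k|_1 ≥ 1` for `k ≠ 0`, and the derivatives of `k · H`:
`dotk k` is a continuous linear map of norm `≤ |k|_1` on the sup norm space `Fin d → ℝ`
(`ContinuousLinearMap.norm_iteratedFDeriv_comp_left`-type estimate, or the sum of the coordinates). -/
theorem dotk_deriv {d : ℕ} (H : (Fin d → ℝ) → (Fin d → ℝ)) (hH : ContDiff ℝ ∞ H)
    (k : Fin d → ℤ) (j : ℕ) (x : Fin d → ℝ) :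
    ‖iteratedFDeriv ℝ j (fun y => dotk k (H y)) x‖ ≤ l1 k * ‖iteratedFDeriv ℝ j H x‖ := by
  obtain ⟨L, hL, hLn⟩ := b1_lin k
  have e : (fun y => dotk k (H y)) = L ∘ H := by
    funext y
    exact (hL (H y)).symm
  rw [e, L.iteratedFDeriv_comp_left hH.contDiffAt (i := j) (by exact_mod_cast le_top)]
  exact (L.norm_compContinuousMultilinearMap_le _).trans
    (mul_le_mul_of_nonneg_right hLn (norm_nonneg _))

/-- (M) The derivatives of the characters in the coordinates `H`. Proof. `‖D^i cos(2π · + θ)‖ ≤ (2π)^i`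
on `ℝ` (`norm_iteratedFDeriv_eq_norm_iteratedDeriv`; the derivatives are `±cos`, `±sin` times
`(2π)^i`; see `bern_cos`, chunk B1b of H14U, for the same computation) and
`‖D^j (k · H)‖ ≤ |k|_1 D ≤ (|k|_1 D)^j` for `1 ≤ j ≤ i` (`dotk_deriv`, `|k|_1 ≥ 1` for `k ≠ 0`),
`norm_iteratedFDeriv_comp_le`: `‖D^i‖ ≤ i! * (2π)^i' * (|k|_1 D)^i`, where the outer bound must be uniform for
the orders `≤ i`: take `C = (2π)^i ≥ 1`. -/
theorem cos_deriv {d : ℕ} (H : (Fin d → ℝ) → (Fin d → ℝ)) (hH : ContDiff ℝ ∞ H) (i : ℕ) (D : ℝ)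
    (hD : 1 ≤ D) (hb : ∀ j, 1 ≤ j → j ≤ i → ∀ x, ‖iteratedFDeriv ℝ j H x‖ ≤ D)
    (k : Fin d → ℤ) (hk : k ≠ 0) (θ : ℝ) (x : Fin d → ℝ) :
    ‖iteratedFDeriv ℝ i (fun y => Real.cos (2 * Real.pi * dotk k (H y) + θ)) x‖ ≤
      i.factorial * (2 * Real.pi) ^ i * (D * l1 k) ^ i := by
  have hl := b1_l1 hk
  have hpi : 1 ≤ 2 * Real.pi := by linarith [Real.pi_gt_three]
  have hg : ContDiff ℝ ∞ (fun y : ℝ => Real.cos (2 * Real.pi * y + θ)) :=
    Real.contDiff_cos.comp ((contDiff_const.mul contDiff_id).add contDiff_const)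
  have h1 : 1 ≤ D * l1 k := by nlinarith
  have key := norm_iteratedFDeriv_comp_le (n := i) hg (b1_dotk hH k) (by exact_mod_cast le_top) x
    (C := (2 * Real.pi) ^ i) (D := D * l1 k) (fun j hj => by
      rw [norm_iteratedFDeriv_eq_norm_iteratedDeriv, b1_cos, Real.norm_eq_abs, abs_mul,
        abs_of_pos (by positivity)]
      calc (2 * Real.pi) ^ j * |Real.cos (2 * Real.pi * dotk k (H x) + θ + j * (Real.pi / 2))|
          ≤ (2 * Real.pi) ^ j * 1 := mul_le_mul_of_nonneg_left (Real.abs_cos_le_one _)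
            (by positivity)
        _ ≤ (2 * Real.pi) ^ i := by
          rw [mul_one]
          exact pow_le_pow_right₀ hpi hj) (fun j hj1 hj => by
      calc ‖iteratedFDeriv ℝ j (fun y => dotk k (H y)) x‖ ≤ l1 k * ‖iteratedFDeriv ℝ j H x‖ :=
            dotk_deriv H hH k j x
        _ ≤ l1 k * D := mul_le_mul_of_nonneg_left (hb j hj1 hj x) (by linarith)
        _ = D * l1 k := mul_comm _ _
        _ ≤ (D * l1 k) ^ j := le_self_pow₀ h1 (by omega))
  exact key

end Pool.Agent.Lib.H47C
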