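import Pool.Agent.Lib.H47C.B1

/-! Chunk B2 of H47C (MP_ef0847_an). -/

set_option autoImplicit false

open scoped ContDiff

namespace Pool.Agent.Lib.H47C

open Pool.Agent.Lib.H14U

/-- (M) The coboundary of a character is small. Proof. With `δ = k·α - p` and
`g y = 2π dotk k (hh y)`: `2π dotk k (hh (F y)) = g y + 2π (k·α) + 2π (k·m) = g y + 2π δ + 2π (k·m + p)`
(`hc.conj`), so `cos` of it is `cos (g y + 2π δ)` (`Real.cos_add_int_mul_two_pi`), and
`cos (g + 2πδ) - cos g = -2 sin (πδ) sin (g + πδ) = -2 sin (πδ) cos (g + πδ - π/2)`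
(`Real.cos_sub_cos`). The function is therefore `c * cos (2π dotk k (hh y) + θ)` with
`|c| ≤ 2 |sin (πδ)| ≤ 2 π |δ|`; `iteratedFDeriv_const_smul_apply` and `cos_deriv`. -/
theorem char_cob {d : ℕ} {F : (Fin d → ℝ) → (Fin d → ℝ)} {α : Fin d → ℝ}
    {hh : (Fin d → ℝ) ≃ₜ (Fin d → ℝ)} {A B : Matrix (Fin d) (Fin d) ℤ}
    {m : Fin d → ℤ} (hc : Conj F α hh A B m) (hsm : ContDiff ℝ ∞ hh) (i : ℕ) (D : ℝ)
    (hD : 1 ≤ D) (hb : ∀ j, 1 ≤ j → j ≤ i → ∀ x, ‖iteratedFDeriv ℝ j hh x‖ ≤ D)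
    (k : Fin d → ℤ) (hk : k ≠ 0) (p : ℤ) (x : Fin d → ℝ) :
    ‖iteratedFDeriv ℝ i (fun y => Real.cos (2 * Real.pi * dotk k (hh (F y))) -
        Real.cos (2 * Real.pi * dotk k (hh y))) x‖ ≤
      2 * Real.pi * |∑ a, (k a : ℝ) * α a - (p : ℝ)| *
        (i.factorial * (2 * Real.pi) ^ i * (D * l1 k) ^ i) := by
  obtain ⟨δ, hδ⟩ : ∃ δ : ℝ, δ = ∑ a, (k a : ℝ) * α a - (p : ℝ) := ⟨_, rfl⟩
  have hadd : ∀ y z : Fin d → ℝ, dotk k (y + z) = dotk k y + dotk k z := by
    intro y z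
    unfold dotk
    rw [← Finset.sum_add_distrib]
    refine Finset.sum_congr rfl fun a _ => ?_
    rw [Pi.add_apply, mul_add]
  have hα : dotk k α = δ + p := by
    rw [hδ]
    unfold dotk
    ring
  have hm : dotk k (zv m) = ((∑ a, k a * m a : ℤ) : ℝ) := by
    unfold dotk zv
    push_cast
    rfl
  have e : (fun y => Real.cos (2 * Real.pi * dotk k (hh (F y))) -
      Real.cos (2 * Real.pi * dotk k (hh y))) =
      fun y => (-2 * Real.sin (Real.pi * δ)) •
        Real.cos (2 * Real.pi * dotk k (hh y) + (Real.pi * δ - Real.pi / 2)) := by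
    funext y
    have e1 : 2 * Real.pi * dotk k (hh (F y)) = (2 * Real.pi * dotk k (hh y) + 2 * Real.pi * δ) +
        ((p + ∑ a, k a * m a : ℤ) : ℝ) * (2 * Real.pi) := by
      rw [hc.conj y, hadd, hadd, hα, hm]
      push_cast
      ring
    rw [e1, Real.cos_add_int_mul_two_pi, Real.cos_sub_cos]
    have e2 : (2 * Real.pi * dotk k (hh y) + 2 * Real.pi * δ + 2 * Real.pi * dotk k (hh y)) / 2 =
        2 * Real.pi * dotk k (hh y) + Real.pi * δ := by ring
    have e3 : (2 * Real.pi * dotk k (hh y) + 2 * Real.pi * δ - 2 * Real.pi * dotk k (hh y)) / 2 =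
        Real.pi * δ := by ring
    rw [e2, e3]
    have e4 : 2 * Real.pi * dotk k (hh y) + (Real.pi * δ - Real.pi / 2) =
        (2 * Real.pi * dotk k (hh y) + Real.pi * δ) - Real.pi / 2 := by ring
    rw [e4, Real.cos_sub_pi_div_two, smul_eq_mul]
    ring
  have hg : ContDiff ℝ ∞ (fun y => Real.cos (2 * Real.pi * dotk k (hh y) +
      (Real.pi * δ - Real.pi / 2))) :=
    Real.contDiff_cos.comp ((contDiff_const.mul (b1_dotk hsm k)).add contDiff_const)
  have h1 := cos_deriv hh hsm i D hD hb k hk (Real.pi * δ - Real.pi / 2) x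
  have h2 : |(-2 * Real.sin (Real.pi * δ))| ≤ 2 * Real.pi * |δ| := by
    have h3 : |Real.sin (Real.pi * δ)| ≤ |Real.pi * δ| := Real.abs_sin_le_abs
    rw [abs_mul, abs_neg, abs_of_pos (by norm_num : (0 : ℝ) < 2)]
    rw [abs_mul, abs_of_pos Real.pi_pos] at h3
    linarith
  have h3 : iteratedFDeriv ℝ i (fun y => (-2 * Real.sin (Real.pi * δ)) •
        Real.cos (2 * Real.pi * dotk k (hh y) + (Real.pi * δ - Real.pi / 2))) x =
      (-2 * Real.sin (Real.pi * δ)) • iteratedFDeriv ℝ i (fun y =>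
        Real.cos (2 * Real.pi * dotk k (hh y) + (Real.pi * δ - Real.pi / 2))) x :=
    iteratedFDeriv_const_smul_apply' (a := -2 * Real.sin (Real.pi * δ))
      (hg.contDiffAt.of_le (by exact_mod_cast le_top))
  rw [e, h3, norm_smul, Real.norm_eq_abs, ← hδ]
  exact mul_le_mul h2 h1 (norm_nonneg _) (by positivity)

end Pool.Agent.Lib.H47C
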