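import Pool.Agent.Lib.H47C.B1

/-! Chunk B3 of H47C (MP_ef0847_an). -/

set_option autoImplicit false

open scoped ContDiff

namespace Pool.Agent.Lib.H47C

open Pool.Agent.Lib.H14U

/-- (S/M) The characters are smooth, periodic and take the values `1` and `-1`. Proof. Periodic:
`dotk k (hh (x + zv l)) = dotk k (hh x) + integer` (`hc.equiv`), `Real.cos_add_int_mul_two_pi`.
Values: `x = hh.symm 0`, `y = hh.symm v` with `dotk k v = 1/2`, e.g. `v = k / (2 |k|_2^2)`
(`∑ k_i^2 ≠ 0`) or `v = Pi.single i (1 / (2 k_i))` for some `i` with `k_i ≠ 0`. -/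
theorem char_basic {d : ℕ} {F : (Fin d → ℝ) → (Fin d → ℝ)} {α : Fin d → ℝ}
    {hh : (Fin d → ℝ) ≃ₜ (Fin d → ℝ)} {A B : Matrix (Fin d) (Fin d) ℤ}
    {m : Fin d → ℤ} (hc : Conj F α hh A B m) (hsm : ContDiff ℝ ∞ hh) (k : Fin d → ℤ)
    (hk : k ≠ 0) :
    ContDiff ℝ ∞ (fun x => Real.cos (2 * Real.pi * dotk k (hh x))) ∧
    Per (fun x => Real.cos (2 * Real.pi * dotk k (hh x))) ∧
    ∃ x y, Real.cos (2 * Real.pi * dotk k (hh x)) = 1 ∧
      Real.cos (2 * Real.pi * dotk k (hh y)) = -1 := by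
  refine ⟨?_, ?_, ?_⟩
  · refine Real.contDiff_cos.comp (contDiff_const.mul ?_)
    unfold dotk
    exact ContDiff.sum fun i _ => contDiff_const.mul (contDiff_pi.1 hsm i)
  · intro x l
    show Real.cos (2 * Real.pi * dotk k (hh (x + zv l))) = Real.cos (2 * Real.pi * dotk k (hh x))
    rw [hc.equiv]
    have h1 : dotk k (hh x + zv (A.mulVec l)) =
        dotk k (hh x) + ((∑ i, k i * (A.mulVec l) i : ℤ) : ℝ) := by
      unfold dotk zv
      push_cast
      rw [← Finset.sum_add_distrib]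
      refine Finset.sum_congr rfl fun i _ => ?_
      simp only [Pi.add_apply]
      ring
    rw [h1]
    have h2 : 2 * Real.pi * (dotk k (hh x) + ((∑ i, k i * (A.mulVec l) i : ℤ) : ℝ)) =
        2 * Real.pi * dotk k (hh x) + ((∑ i, k i * (A.mulVec l) i : ℤ) : ℝ) * (2 * Real.pi) := by
      ring
    rw [h2, Real.cos_add_int_mul_two_pi]
  · obtain ⟨i, hi⟩ : ∃ i, k i ≠ 0 := by
      by_contra hcon
      push Not at hcon
      exact hk (funext hcon)
    have hi' : (k i : ℝ) ≠ 0 := by exact_mod_cast hi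
    refine ⟨hh.symm 0, hh.symm (Pi.single i (1 / (2 * (k i : ℝ)))), ?_, ?_⟩
    · rw [Homeomorph.apply_symm_apply]
      simp [dotk]
    · rw [Homeomorph.apply_symm_apply]
      have h1 : dotk k (Pi.single i (1 / (2 * (k i : ℝ)))) = 1 / 2 := by
        unfold dotk
        rw [Finset.sum_eq_single i]
        · rw [Pi.single_eq_same]
          field_simp
        · intro j _ hj
          rw [Pi.single_eq_of_ne hj, mul_zero]
        · intro h
          exact absurd (Finset.mem_univ i) h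
      rw [h1]
      have h2 : 2 * Real.pi * (1 / 2) = Real.pi := by ring
      rw [h2, Real.cos_pi]

/-- (S) `|k|_1 ≥ 1` for a nonzero integer vector. -/
theorem one_le_l1 {d : ℕ} (k : Fin d → ℤ) (hk : k ≠ 0) : 1 ≤ l1 k := by
  obtain ⟨i, hi⟩ : ∃ i, k i ≠ 0 := by
    by_contra hcon
    push Not at hcon
    exact hk (funext hcon)
  have h1 : (1 : ℤ) ≤ |k i| := Int.one_le_abs hi
  have h2 : (1 : ℝ) ≤ |(k i : ℝ)| := by exact_mod_cast h1
  refine h2.trans ?_
  exact Finset.single_le_sum (f := fun i => |(k i : ℝ)|) (fun j _ => abs_nonneg _)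
    (Finset.mem_univ i)

end Pool.Agent.Lib.H47C
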