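import Pool.Agent.Lib.H47C.B0
import Pool.Agent.Lib.H47C.B2
import Pool.Agent.Lib.H47C.B3

/-! Chunk B4 of H47C (MP_ef0847_an). -/

set_option autoImplicit false

open scoped ContDiff

namespace Pool.Agent.Lib.H47C

open Pool.Agent.Lib.H14U

/-- (M) The rotation vector is Diophantine. Proof. Suppose not: for all `C > 0`, `τ > 0` there are `k ≠ 0`
and `p` with `|k·α - p| < C / |k|_1 ^ τ`. For `j : ℕ` let `D_j ≥ 1` be the bound of
`hh_deriv_bounded` for `n = j`, `E_j = 2π (j+1) * j! * (2π)^j * D_j^j` (it dominates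
`2π j i! (2π)^i D_j^i` for `i ≤ j`), `C = (1/2)^j / E_j`, `τ = j + 1`
(`Real.rpow_natCast` after writing `τ = ((j+1 : ℕ) : ℝ)`): choose `k_j ≠ 0` and `p_j`. Put
`ψ j x = j * cos (2π dotk k_j (hh x))`. It is smooth and periodic with oscillation `≥ 2 j ≥ j`
(`char_basic`), and for `i ≤ j` by `char_cob`
`‖D^i (ψ j ∘ F - ψ j)‖ ≤ j * 2π * C / |k|_1^(j+1) * i! (2π)^i (D_j |k|_1)^i ≤ (1/2)^j`
(`|k|_1 ≥ 1`, `one_le_l1`). `not_closed` of H14U: contradiction. -/
theorem dio {d : ℕ} {F G : (Fin d → ℝ) → (Fin d → ℝ)} (hS : Sys F G) (hR : Rigid F)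
    (hcl : ClosedCob F) {α : Fin d → ℝ}
    {hh : (Fin d → ℝ) ≃ₜ (Fin d → ℝ)} {A B : Matrix (Fin d) (Fin d) ℤ}
    {m : Fin d → ℤ} (hc : Conj F α hh A B m) (hsm : ContDiff ℝ ∞ hh) : Dio α := by
  by_contra hnd
  unfold Dio at hnd
  push Not at hnd
  have hle : ∀ j : ℕ, ((j : ℕ∞ω) : ℕ∞ω) ≤ ∞ := fun j => by exact_mod_cast le_top
  choose D hD hDb using fun j : ℕ => hh_deriv_bounded hc hsm j
  have hpi : (0 : ℝ) < Real.pi := Real.pi_pos
  have hDpos : ∀ j, 0 < D j := fun j => lt_of_lt_of_le one_pos (hD j)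
  have hE : ∀ j : ℕ, 0 < 2 * Real.pi * ((j : ℝ) + 1) * (j.factorial * (2 * Real.pi) ^ j * D j ^ j) := by
    intro j
    have := hDpos j
    have h2 : (0 : ℝ) < j.factorial := by exact_mod_cast Nat.factorial_pos j
    positivity
  have hex : ∀ j : ℕ, ∃ k : Fin d → ℤ, k ≠ 0 ∧ ∃ p : ℤ,
      |∑ i, (k i : ℝ) * α i - (p : ℝ)| <
        ((1 / 2 : ℝ) ^ j / (2 * Real.pi * ((j : ℝ) + 1) * (j.factorial * (2 * Real.pi) ^ j * D j ^ j)))
          / l1 k ^ (j + 1) := by
    intro j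
    obtain ⟨k, hk, p, hp⟩ := hnd
      ((1 / 2 : ℝ) ^ j / (2 * Real.pi * ((j : ℝ) + 1) * (j.factorial * (2 * Real.pi) ^ j * D j ^ j)))
      (div_pos (by positivity) (hE j)) ((j + 1 : ℕ) : ℝ) (by positivity)
    refine ⟨k, hk, p, ?_⟩
    rw [Real.rpow_natCast] at hp
    exact hp
  choose k hk p hp using hex
  have hB := fun j => char_basic hc hsm (k j) (hk j)
  refine not_closed hS hR
    (fun j x => (j : ℝ) * Real.cos (2 * Real.pi * dotk (k j) (hh x))) ?_ ?_ ?_ ?_ hcl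
  · intro j
    exact contDiff_const.mul (hB j).1
  · intro j x l
    show (j : ℝ) * Real.cos (2 * Real.pi * dotk (k j) (hh (x + zv l)))
      = (j : ℝ) * Real.cos (2 * Real.pi * dotk (k j) (hh x))
    have h1 : Real.cos (2 * Real.pi * dotk (k j) (hh (x + zv l)))
        = Real.cos (2 * Real.pi * dotk (k j) (hh x)) := (hB j).2.1 x l
    rw [h1]
  · intro j
    obtain ⟨x, y, hx, hy⟩ := (hB j).2.2
    refine ⟨x, y, ?_⟩
    show (j : ℝ) ≤ |(j : ℝ) * Real.cos (2 * Real.pi * dotk (k j) (hh x))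
      - (j : ℝ) * Real.cos (2 * Real.pi * dotk (k j) (hh y))|
    rw [hx, hy]
    have hj : (0 : ℝ) ≤ j := Nat.cast_nonneg j
    refine le_trans ?_ (le_abs_self _)
    linarith
  · intro j i hij x
    have hcob := char_cob hc hsm i (D j) (hD j)
      (fun a ha hai z => hDb j a ha (hai.trans hij) z) (k j) (hk j) (p j) x
    have hl1 : 1 ≤ l1 (k j) := one_le_l1 (k j) (hk j)
    have hl0 : 0 < l1 (k j) := lt_of_lt_of_le one_pos hl1
    have hgs : ContDiff ℝ ∞ (fun y => Real.cos (2 * Real.pi * dotk (k j) (hh (F y))) -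
        Real.cos (2 * Real.pi * dotk (k j) (hh y))) :=
      ((hB j).1.comp hS.smoothF).sub (hB j).1
    have heq : (fun y => (j : ℝ) * Real.cos (2 * Real.pi * dotk (k j) (hh (F y)))
        - (j : ℝ) * Real.cos (2 * Real.pi * dotk (k j) (hh y)))
        = (j : ℝ) • (fun y => Real.cos (2 * Real.pi * dotk (k j) (hh (F y))) -
          Real.cos (2 * Real.pi * dotk (k j) (hh y))) := by
      funext y
      show _ = (j : ℝ) * (Real.cos (2 * Real.pi * dotk (k j) (hh (F y))) -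
          Real.cos (2 * Real.pi * dotk (k j) (hh y)))
      ring
    show ‖iteratedFDeriv ℝ i (fun y => (j : ℝ) * Real.cos (2 * Real.pi * dotk (k j) (hh (F y)))
        - (j : ℝ) * Real.cos (2 * Real.pi * dotk (k j) (hh y))) x‖ ≤ (1 / 2 : ℝ) ^ j
    rw [heq, iteratedFDeriv_const_smul_apply ((hgs.of_le (hle i)).contDiffAt), norm_smul,
      Real.norm_of_nonneg (Nat.cast_nonneg j)]
    have hδ := (hp j).le
    have hfac : (i.factorial : ℝ) ≤ j.factorial := by exact_mod_cast Nat.factorial_le hij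
    have h2pi : (1 : ℝ) ≤ 2 * Real.pi := by
      have := Real.two_le_pi
      linarith
    have hpw : (2 * Real.pi) ^ i ≤ (2 * Real.pi) ^ j := pow_le_pow_right₀ h2pi hij
    have hDw : D j ^ i ≤ D j ^ j := pow_le_pow_right₀ (hD j) hij
    have hlw : l1 (k j) ^ i ≤ l1 (k j) ^ (j + 1) := pow_le_pow_right₀ hl1 (by omega)
    have hj : (0 : ℝ) ≤ j := Nat.cast_nonneg j
    have hD0 := hDpos j
    have hbig : (i.factorial : ℝ) * (2 * Real.pi) ^ i * (D j * l1 (k j)) ^ i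
        ≤ (j.factorial * (2 * Real.pi) ^ j * D j ^ j) * l1 (k j) ^ (j + 1) := by
      rw [mul_pow (D j) (l1 (k j)) i]
      calc (i.factorial : ℝ) * (2 * Real.pi) ^ i * (D j ^ i * l1 (k j) ^ i)
          ≤ (j.factorial : ℝ) * (2 * Real.pi) ^ j * (D j ^ j * l1 (k j) ^ (j + 1)) := by gcongr
        _ = (j.factorial * (2 * Real.pi) ^ j * D j ^ j) * l1 (k j) ^ (j + 1) := by ring
    have hQ : 0 < (j.factorial : ℝ) * (2 * Real.pi) ^ j * D j ^ j := by
      have h2 : (0 : ℝ) < j.factorial := by exact_mod_cast Nat.factorial_pos j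
      positivity
    have hstep : 2 * Real.pi * |∑ a, (k j a : ℝ) * α a - (p j : ℝ)| *
        (i.factorial * (2 * Real.pi) ^ i * (D j * l1 (k j)) ^ i)
        ≤ (1 / 2 : ℝ) ^ j / ((j : ℝ) + 1) := by
      calc 2 * Real.pi * |∑ a, (k j a : ℝ) * α a - (p j : ℝ)| *
            (i.factorial * (2 * Real.pi) ^ i * (D j * l1 (k j)) ^ i)
          ≤ 2 * Real.pi * (((1 / 2 : ℝ) ^ j / (2 * Real.pi * ((j : ℝ) + 1)
              * (j.factorial * (2 * Real.pi) ^ j * D j ^ j))) / l1 (k j) ^ (j + 1)) *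
            ((j.factorial * (2 * Real.pi) ^ j * D j ^ j) * l1 (k j) ^ (j + 1)) := by gcongr
        _ = (1 / 2 : ℝ) ^ j / ((j : ℝ) + 1) := by
          have h2 : (j.factorial : ℝ) ≠ 0 := by
            exact_mod_cast (Nat.factorial_pos j).ne'
          have h3 : (j : ℝ) + 1 ≠ 0 := by positivity
          have h4 : l1 (k j) ≠ 0 := hl0.ne'
          have h5 : D j ≠ 0 := hD0.ne'
          have h6 : Real.pi ≠ 0 := hpi.ne'
          generalize (j.factorial : ℝ) * (2 * Real.pi) ^ j * D j ^ j = Q at hQ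
          have h7 : Q ≠ 0 := hQ.ne'
          field_simp
    calc (j : ℝ) * ‖iteratedFDeriv ℝ i (fun y => Real.cos (2 * Real.pi * dotk (k j) (hh (F y))) -
          Real.cos (2 * Real.pi * dotk (k j) (hh y))) x‖
        ≤ (j : ℝ) * ((1 / 2 : ℝ) ^ j / ((j : ℝ) + 1)) :=
          mul_le_mul_of_nonneg_left (hcob.trans hstep) hj
      _ = (1 / 2 : ℝ) ^ j * ((j : ℝ) / ((j : ℝ) + 1)) := by ring
      _ ≤ (1 / 2 : ℝ) ^ j * 1 := by
          have h1 : (j : ℝ) / ((j : ℝ) + 1) ≤ 1 := by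
            rw [div_le_one (by positivity)]
            linarith
          gcongr
      _ = (1 / 2 : ℝ) ^ j := mul_one _

end Pool.Agent.Lib.H47C
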