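import Pool.Agent.Lib.H47C.Defs

/-! Chunk C1 of H47C (MP_ef0847_an). -/

set_option autoImplicit false

open scoped ContDiff

namespace Pool.Agent.Lib.H47C

open Pool.Agent.Lib.H14U

/-- (M) Lifting a continuous map of the torus to `ℝ^d`.
Proof. For every coordinate `i` the map `x ↦ g (pr x) i` is a continuous map `ℝ^d → AddCircle 1`;
`ℝ^d` is contractible, hence simply connected (`SimplyConnectedSpace.ofContractible` or instance),
and locally path connected (instance for normed / locally convex spaces), and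
`AddCircle.isCoveringMap_coe (1 : ℝ)` is a covering map, so
`IsCoveringMap.existsUnique_continuousMap_lifts` gives a continuous lift (choose any base point
`a₀ = 0` and any `e₀` over `g (pr 0) i`, `QuotientAddGroup.mk_surjective`). Put the coordinates together
(`continuous_pi`). -/
theorem lift_torus {d : ℕ} (g : (Fin d → AddCircle (1 : ℝ)) → (Fin d → AddCircle (1 : ℝ)))
    (hg : Continuous g) :
    ∃ gg : (Fin d → ℝ) → (Fin d → ℝ), Continuous gg ∧ ∀ x, pr (gg x) = g (pr x) := by
  have hpr : Continuous (pr (d := d)) := pr_basic.1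
  have hcov : IsCoveringMap ((↑) : ℝ → AddCircle (1 : ℝ)) := AddCircle.isCoveringMap_coe (1 : ℝ)
  have key : ∀ i, ∃ φ : (Fin d → ℝ) → ℝ, Continuous φ ∧
      ∀ x, ((φ x : ℝ) : AddCircle (1 : ℝ)) = g (pr x) i := by
    intro i
    let f : C((Fin d → ℝ), AddCircle (1 : ℝ)) :=
      ⟨fun x => g (pr x) i, (continuous_apply i).comp (hg.comp hpr)⟩
    obtain ⟨e₀, he₀⟩ := QuotientAddGroup.mk_surjective (f 0)
    obtain ⟨Φ, ⟨-, hΦ⟩, -⟩ := hcov.existsUnique_continuousMap_lifts f 0 e₀ he₀
    exact ⟨Φ, Φ.continuous, fun x => congrFun hΦ x⟩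
  choose φ hφ hφ' using key
  exact ⟨fun x i => φ i x, continuous_pi fun i => hφ i, fun x => funext fun i => hφ' i x⟩

end Pool.Agent.Lib.H47C
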