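import Pool.Agent.Lib.H47C.Defs

/-! Chunk C2a of H47C (MP_ef0847_an). -/

set_option autoImplicit false

open scoped ContDiff

namespace Pool.Agent.Lib.H47C

open Pool.Agent.Lib.H14U

/-- (S) A continuous map with values in the integer vectors is constant: `const_integer` of H14U
with `s = Set.univ`, `ρ = 0` (`isPreconnected_univ`), `x₀ = 0`. -/
theorem const_diff {d : ℕ} {u : (Fin d → ℝ) → (Fin d → ℝ)} (hu : Continuous u)
    (h : ∀ x, ∃ k : Fin d → ℤ, u x = zv k) : ∃ k : Fin d → ℤ, ∀ x, u x = zv k := by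
  obtain ⟨k₀, hk₀⟩ := h 0
  refine ⟨k₀, ?_⟩
  have h1 : ∀ y ∈ (Set.univ : Set (Fin d → ℝ)), ∃ k : Fin d → ℤ, ‖u y - zv k‖ ≤ (0 : ℝ) := by
    intro y _
    obtain ⟨k, hk⟩ := h y
    exact ⟨k, by rw [hk, sub_self, norm_zero]⟩
  have h2 := const_integer isPreconnected_univ hu.continuousOn (ρ := 0) (by norm_num) h1 0
    (Set.mem_univ _) k₀ (by rw [hk₀, sub_self, norm_zero])
  intro x
  have h3 := h2 x (Set.mem_univ x)
  exact sub_eq_zero.mp (norm_le_zero_iff.mp h3)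

/-- (S) An additive map of `ℤ^d` is an integer matrix: `A i j = c (Pi.single j 1) i`
(`AddMonoidHom`, `Matrix.toLin'`/`LinearMap.toMatrix'`, or by `Finset.univ_sum_single` and
`map_sum`, `map_zsmul`). -/
theorem additive_matrix {d : ℕ} (c : (Fin d → ℤ) → (Fin d → ℤ))
    (hc : ∀ k l, c (k + l) = c k + c l) :
    ∃ A : Matrix (Fin d) (Fin d) ℤ, ∀ k, c k = A.mulVec k := by
  let f : (Fin d → ℤ) →+ (Fin d → ℤ) := AddMonoidHom.mk' c hc
  refine ⟨LinearMap.toMatrix' f.toIntLinearMap, ?_⟩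
  intro k
  have h1 := LinearMap.toMatrix'_mulVec f.toIntLinearMap k
  rw [h1]
  rfl

end Pool.Agent.Lib.H47C
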