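import Pool.Agent.Lib.H47C.C2a

/-! Chunk C2b of H47C (MP_ef0847_an). -/

set_option autoImplicit false

open scoped ContDiff

namespace Pool.Agent.Lib.H47C

open Pool.Agent.Lib.H14U

/-- (S/M) A lift of a torus map has an integer linear part. For every `k` the continuous map
`x ↦ gg (x + zv k) - gg x` has values in the integer vectors (`pr_eq`), so it is a constant
`zv (c k)` (`const_diff`; choose `c`). `c (k + l) = c k + c l`: evaluate at `x` and `x + zv l`
(`zv (k + l) = zv k + zv l`, `zv` injective). `additive_matrix`. -/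
theorem lift_equiv {d : ℕ} (gg : (Fin d → ℝ) → (Fin d → ℝ)) (hgg : Continuous gg)
    (hp : ∀ (x : Fin d → ℝ) (k : Fin d → ℤ), pr (gg (x + zv k)) = pr (gg x)) :
    ∃ A : Matrix (Fin d) (Fin d) ℤ, ∀ (x : Fin d → ℝ) (k : Fin d → ℤ),
      gg (x + zv k) = gg x + zv (A.mulVec k) := by
  have hzadd : ∀ k l : Fin d → ℤ, zv (k + l) = zv k + zv l := by
    intro k l
    funext i
    simp [zv]
  have hzinj : ∀ k l : Fin d → ℤ, zv k = zv l → k = l := by
    intro k l h
    funext i
    have := congrFun h i
    simpa [zv] using this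
  have key : ∀ k : Fin d → ℤ, ∃ c : Fin d → ℤ, ∀ x, gg (x + zv k) - gg x = zv c := by
    intro k
    refine const_diff (u := fun x => gg (x + zv k) - gg x) ?_ ?_
    · exact (hgg.comp (continuous_id.add continuous_const)).sub hgg
    · intro x
      obtain ⟨c, hc⟩ := pr_eq (hp x k)
      exact ⟨c, by rw [hc]; abel⟩
  choose c hc using key
  have hc' : ∀ x k, gg (x + zv k) = gg x + zv (c k) := by
    intro x k
    rw [← hc k x]
    abel
  have hadd : ∀ k l, c (k + l) = c k + c l := by
    intro k l
    apply hzinj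
    have h1 := hc' 0 (k + l)
    have h2 := hc' (0 + zv k) l
    rw [hc' 0 k, add_assoc, ← hzadd, h1, add_assoc] at h2
    rw [hzadd]
    exact add_left_cancel h2
  obtain ⟨A, hA⟩ := additive_matrix c hadd
  exact ⟨A, fun x k => by rw [hc', hA]⟩

end Pool.Agent.Lib.H47C
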