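import Pool.Agent.Lib.H47C.C1
import Pool.Agent.Lib.H47C.C2b

/-! Chunk C3 of H47C (MP_ef0847_an). -/

set_option autoImplicit false

open scoped ContDiff

namespace Pool.Agent.Lib.H47C

open Pool.Agent.Lib.H14U

theorem c3_zv_inj {d : ℕ} {k l : Fin d → ℤ} (h : zv k = zv l) : k = l := by
  funext i
  have h1 := congrFun h i
  simpa [zv] using h1

theorem c3_zv_neg {d : ℕ} (k : Fin d → ℤ) : zv (-k) = -zv k := by
  funext i
  simp [zv]

/-- One half of the statement. -/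
theorem c3_half {d : ℕ} (h g : (Fin d → AddCircle (1 : ℝ)) → (Fin d → AddCircle (1 : ℝ)))
    (hgh : ∀ x, g (h x) = x) {a b : (Fin d → ℝ) → (Fin d → ℝ)} (ha : Continuous a)
    (hb : Continuous b) (hpa : ∀ x, pr (a x) = h (pr x)) (hpb : ∀ x, pr (b x) = g (pr x)) :
    ∃ c : Fin d → ℤ, ∀ x, b (a x) = x + zv c := by
  have h1 : ∀ x, ∃ k : Fin d → ℤ, b (a x) - x = zv k := by
    intro x
    have h2 : pr (b (a x)) = pr x := by rw [hpb, hpa, hgh]
    obtain ⟨k, hk⟩ := pr_eq h2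
    exact ⟨k, by rw [hk]; abel⟩
  obtain ⟨c, hc⟩ := const_diff ((hb.comp ha).sub continuous_id) h1
  refine ⟨c, fun x => ?_⟩
  have h2 : b (a x) - x = zv c := hc x
  rw [← h2]
  abel

theorem c3_mat {d : ℕ} {a b : (Fin d → ℝ) → (Fin d → ℝ)} {A B : Matrix (Fin d) (Fin d) ℤ}
    (hA : ∀ (x : Fin d → ℝ) (k : Fin d → ℤ), a (x + zv k) = a x + zv (A.mulVec k))
    (hB : ∀ (x : Fin d → ℝ) (k : Fin d → ℤ), b (x + zv k) = b x + zv (B.mulVec k))
    {c : Fin d → ℤ} (hc : ∀ x, b (a x) = x + zv c) : B * A = 1 := by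
  have h1 : ∀ k : Fin d → ℤ, (B * A).mulVec k = k := by
    intro k
    have h2 := hc (0 + zv k)
    rw [hA, hB, hc] at h2
    rw [← Matrix.mulVec_mulVec]
    apply c3_zv_inj
    have h3 : (0 : Fin d → ℝ) + zv c + zv (B.mulVec (A.mulVec k)) = 0 + zv c + zv k := by
      rw [h2]
      abel
    exact add_left_cancel h3
  ext i j
  have h2 := congrFun (h1 (Pi.single j 1)) i
  rw [Matrix.mulVec_single_one] at h2
  rw [Matrix.one_apply]
  simp only [Matrix.col_apply] at h2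
  rw [h2, Pi.single_apply]

/-- (M) A homeomorphism of the torus lifts to a homeomorphism of `ℝ^d`.
Proof. Let `a`, `b` be lifts of `h`, `h.symm` (`lift_torus`), with matrices `A`, `B` (`lift_equiv`;
`pr (a (x + zv k)) = h (pr (x + zv k)) = h (pr x) = pr (a x)`). `b (a x) - x` is a continuous integer
vector valued map: `pr (b (a x)) = h.symm (pr (a x)) = h.symm (h (pr x)) = pr x`, so by `pr_eq` and
`const_diff` `b (a x) = x + zv c₁`, and in the same way `a (b x) = x + zv c₂`. Comparing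
`b (a (x + zv k)) = b (a x + zv (A.mulVec k)) = b (a x) + zv (B.mulVec (A.mulVec k))` with
`x + zv k + zv c₁` gives `(B * A).mulVec k = k` for all `k`, so `B * A = 1` (`Matrix.ext_of_mulVec_single`
or `Matrix.mulVec_injective`-like; `A * B = 1` by `Matrix.mul_eq_one_comm`).
`a (b (a x)) = a x + zv (A.mulVec c₁)` and `= a x + zv c₂`, so `c₂ = A.mulVec c₁`, and
`b' x = b x - zv c₁` is a two-sided continuous inverse of `a`:
`a (b x - zv c₁) = a (b x) - zv (A.mulVec c₁) = x + zv c₂ - zv c₂` (use `x + zv k` with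
`k = -c₁`, `zv (-c) = - zv c`). `hh = ⟨⟨a, b', _, _⟩, _, _⟩`. -/
theorem lift_homeo {d : ℕ} (h : (Fin d → AddCircle (1 : ℝ)) ≃ₜ (Fin d → AddCircle (1 : ℝ))) :
    ∃ (hh : (Fin d → ℝ) ≃ₜ (Fin d → ℝ)) (A B : Matrix (Fin d) (Fin d) ℤ),
      A * B = 1 ∧ B * A = 1 ∧
      (∀ (x : Fin d → ℝ) (k : Fin d → ℤ), hh (x + zv k) = hh x + zv (A.mulVec k)) ∧
      ∀ x, pr (hh x) = h (pr x) := by
  obtain ⟨a, ha, hpa⟩ := lift_torus h h.continuous
  obtain ⟨b, hb, hpb⟩ := lift_torus h.symm h.symm.continuous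
  have hper : ∀ (x : Fin d → ℝ) (k : Fin d → ℤ), pr (x + zv k) = pr x := pr_basic.2.2.2
  obtain ⟨A, hA⟩ := lift_equiv a ha (fun x k => by rw [hpa, hpa, hper])
  obtain ⟨B, hB⟩ := lift_equiv b hb (fun x k => by rw [hpb, hpb, hper])
  obtain ⟨c1, hc1⟩ := c3_half h h.symm (fun x => h.symm_apply_apply x) ha hb hpa hpb
  obtain ⟨c2, hc2⟩ := c3_half h.symm h (fun x => h.apply_symm_apply x) hb ha hpb hpa
  have hBA := c3_mat hA hB hc1
  have hAB := c3_mat hB hA hc2
  -- the relation between the two constants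
  have hcc : zv (A.mulVec c1) = zv c2 := by
    have h1 := congrArg a (hc1 0)
    rw [hc2, hA] at h1
    exact (add_left_cancel h1).symm
  refine ⟨⟨⟨a, fun x => b (x + zv (-c2)), ?_, ?_⟩, ha,
    hb.comp (continuous_id.add continuous_const)⟩, A, B, hAB, hBA, hA, hpa⟩
  · intro x
    show b (a x + zv (-c2)) = x
    have h1 : zv (-c2) = zv (A.mulVec (-c1)) := by
      rw [Matrix.mulVec_neg, c3_zv_neg, c3_zv_neg, hcc]
    rw [h1, ← hA, hc1, c3_zv_neg]
    abel
  · intro x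
    show a (b (x + zv (-c2))) = x
    rw [hc2, c3_zv_neg]
    abel

end Pool.Agent.Lib.H47C
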