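import Pool.Agent.Lib.H47C.C3

/-! Chunk C4 of H47C (MP_ef0847_an). -/

set_option autoImplicit false

open scoped ContDiff

namespace Pool.Agent.Lib.H47C

open Pool.Agent.Lib.H14U

/-- (S) The lifted conjugacy. `pr (hh (F x)) = h (pr (F x)) = h (pr x) + pr α = pr (hh x + α)`, so
`hh (F x) - (hh x + α)` is a continuous integer vector valued map (`pr_eq`), a constant
(`const_diff`). -/
theorem exists_conj {d : ℕ} (α : Fin d → ℝ) (F : (Fin d → ℝ) → (Fin d → ℝ)) (hF : Continuous F)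
    (h : (Fin d → AddCircle (1 : ℝ)) ≃ₜ (Fin d → AddCircle (1 : ℝ)))
    (hconj : ∀ x : Fin d → ℝ, h (pr (F x)) = h (pr x) + pr α) :
    ∃ (hh : (Fin d → ℝ) ≃ₜ (Fin d → ℝ)) (A B : Matrix (Fin d) (Fin d) ℤ) (m : Fin d → ℤ),
      Conj F α hh A B m ∧ ∀ x, pr (hh x) = h (pr x) := by
  obtain ⟨hh, A, B, hAB, hBA, heq, hp⟩ := lift_homeo h
  have hcont : Continuous (fun x => hh (F x) - (hh x + α)) :=
    (hh.continuous.comp hF).sub (hh.continuous.add continuous_const)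
  obtain ⟨m, hm⟩ := const_diff hcont (fun x => by
    have h1 : pr (hh (F x)) = pr (hh x + α) := by
      rw [hp, hconj, pr_basic.2.2.1, hp]
    obtain ⟨k, hk⟩ := pr_eq h1
    exact ⟨k, by rw [hk]; abel⟩)
  refine ⟨hh, A, B, m, ⟨hAB, hBA, heq, fun x => ?_⟩, hp⟩
  have h2 := hm x
  have h3 : hh (F x) = (hh (F x) - (hh x + α)) + (hh x + α) := by abel
  rw [h3, h2]
  abel

end Pool.Agent.Lib.H47C
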