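import Pool.Agent.Lib.H47C.Defs

/-! Chunk D1 of H47C (MP_ef0847_an). -/

set_option autoImplicit false

open scoped ContDiff

namespace Pool.Agent.Lib.H47C

open Pool.Agent.Lib.H14U

/-- (M) Closed sets of `ℝ^d` invariant under the integer translations and an irrational translation.
Proof. Let `S` be nonempty. `ψ y = Metric.infDist y S` is continuous and periodic
(`infDist (y + zv k) S = infDist y S`, because `S + zv k = S`: translations are isometries and
`y + zv k ∈ S ↔ y ∈ S` from the hypothesis for `k` and `-k`), and `ψ (y + α) = ψ y`.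
`descend` gives `g` on the torus with `ψ = g ∘ pr`, `g (z + pr α) = g z` (`z = pr y`,
`pr (y + α) = pr y + pr α`), so `g` is constant (`invariant_const`); `ψ = 0` on `S`, so `ψ = 0` and
`S = closure S = univ` (`Metric.mem_closure_iff_infDist_zero`, `IsClosed.mem_iff_infDist_zero`). -/
theorem closed_invariant {d : ℕ} (α : Fin d → ℝ)
    (hα : ∀ k : Fin d → ℤ, k ≠ 0 → ∀ m : ℤ, ∑ i, (k i : ℝ) * α i ≠ (m : ℝ))
    (S : Set (Fin d → ℝ)) (hS : IsClosed S) (hne : S.Nonempty)
    (hp : ∀ y ∈ S, ∀ k : Fin d → ℤ, y + zv k ∈ S) (hi : ∀ y, y ∈ S ↔ y + α ∈ S) :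
    S = Set.univ := by
  have hzneg : ∀ k : Fin d → ℤ, zv (-k) = -zv k := by
    intro k; funext i; simp [zv]
  have hp' : ∀ y (k : Fin d → ℤ), y + zv k ∈ S → y ∈ S := by
    intro y k hy
    have h1 := hp _ hy (-k)
    rw [hzneg] at h1
    have h2 : y + zv k + -zv k = y := by abel
    rwa [h2] at h1
  -- a translation preserving `S` in both directions preserves the distance
  have hdist : ∀ v : Fin d → ℝ, (∀ y, y ∈ S ↔ y + v ∈ S) → ∀ y,
      Metric.infDist (y + v) S = Metric.infDist y S := by
    intro v hv y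
    have himg : (fun z => z + v) '' S = S := by
      ext z
      constructor
      · rintro ⟨w, hw, rfl⟩
        exact (hv w).1 hw
      · intro hz
        refine ⟨z - v, (hv _).2 (by simpa using hz), by simp⟩
    have hiso : Isometry (fun z : Fin d → ℝ => z + v) := isometry_add_right v
    have h1 := Metric.infDist_image (Φ := fun z : Fin d → ℝ => z + v) (x := y) (t := S) hiso
    rw [himg] at h1
    exact h1
  have hper : Per (fun y => Metric.infDist y S) := by
    intro y k
    exact hdist (zv k) (fun y => ⟨fun hy => hp y hy k, hp' y k⟩) y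
  obtain ⟨g, hg, hgψ⟩ := descend (Metric.continuous_infDist_pt S) hper
  have hinv : ∀ z, g (z + pr α) = g z := by
    intro z
    obtain ⟨y, rfl⟩ := pr_basic.2.1 z
    rw [← pr_basic.2.2.1, ← hgψ, ← hgψ]
    exact hdist α hi y
  obtain ⟨y₀, hy₀⟩ := hne
  ext y
  simp only [Set.mem_univ, iff_true]
  rw [hS.mem_iff_infDist_zero ⟨y₀, hy₀⟩]
  have h1 : Metric.infDist y S = Metric.infDist y₀ S := by
    have := invariant_const α hα g hg hinv (pr y) (pr y₀)
    rw [← hgψ, ← hgψ] at this
    exact this
  rw [h1, (hS.mem_iff_infDist_zero ⟨y₀, hy₀⟩).1 hy₀]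

end Pool.Agent.Lib.H47C
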