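import Pool.Agent.Lib.H47C.D1

/-! Chunk D2 of H47C (MP_ef0847_an). -/

set_option autoImplicit false

open scoped ContDiff

namespace Pool.Agent.Lib.H47C

open Pool.Agent.Lib.H14U

theorem d2_det_comp {d : ℕ} (f g : (Fin d → ℝ) →L[ℝ] (Fin d → ℝ)) :
    (f.comp g).det = f.det * g.det := by
  unfold ContinuousLinearMap.det
  rw [ContinuousLinearMap.toLinearMap_comp, LinearMap.det_comp]

theorem d2_zv_add {d : ℕ} (k l : Fin d → ℤ) : zv (k + l) = zv k + zv l := by
  funext i
  simp [zv]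

/-- (M) The derivative of the smooth conjugacy is invertible everywhere. Proof. Let
`Z = {x | (fderiv ℝ hh x).det = 0}` and `S = hh '' Z`; suppose `Z` is nonempty.
`Z` is closed (`fderiv` is continuous, `ContinuousLinearMap.continuous_det`), so `S` is closed
(homeomorphism). `fderiv ℝ hh (x + zv k) = fderiv ℝ hh x` (from `hc.equiv`,
`fderiv_comp_add_right`), so `S + zv (A.mulVec k) ⊆ S` and, as `k = A.mulVec (B.mulVec k)`, `S + zv k ⊆ S`.
`fderiv ℝ hh (F x) ∘ fderiv ℝ F x = fderiv ℝ hh x` (chain rule in `hc.conj`), and `fderiv ℝ F x` is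
invertible (`G ∘ F = id`: `(fderiv ℝ G (F x)).comp (fderiv ℝ F x) = id`, so its determinant is not
zero, `LinearMap.det_comp`/`ContinuousLinearMap.det`), hence `x ∈ Z ↔ F x ∈ Z`, and with
`F` surjective (`hS.right`) `y ∈ S ↔ y + α ∈ S`. `closed_invariant`: `S = univ`, so `Z = univ`
(`hh` injective). By Sard (`MeasureTheory.addHaar_image_eq_zero_of_det_fderiv_eq_zero`)
`volume (hh '' univ) = 0`, but `hh '' univ = univ` has volume `≠ 0`. -/
theorem det_ne_zero {d : ℕ} {F G : (Fin d → ℝ) → (Fin d → ℝ)} (hS : Sys F G) {α : Fin d → ℝ}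
    (hα : ∀ k : Fin d → ℤ, k ≠ 0 → ∀ m : ℤ, ∑ i, (k i : ℝ) * α i ≠ (m : ℝ))
    {hh : (Fin d → ℝ) ≃ₜ (Fin d → ℝ)} {A B : Matrix (Fin d) (Fin d) ℤ}
    {m : Fin d → ℤ} (hc : Conj F α hh A B m) (hsm : ContDiff ℝ ∞ hh) (x : Fin d → ℝ) :
    (fderiv ℝ hh x).det ≠ 0 := by
  intro h0
  have hdiff : Differentiable ℝ hh := hsm.differentiable (by simp)
  have hdF : Differentiable ℝ F := hS.smoothF.differentiable (by simp)
  have hdG : Differentiable ℝ G := hS.smoothG.differentiable (by simp)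
  have hZc : IsClosed {y : Fin d → ℝ | (fderiv ℝ hh y).det = 0} :=
    isClosed_eq (ContinuousLinearMap.continuous_det.comp (hsm.continuous_fderiv (by simp)))
      continuous_const
  have hSc : IsClosed (hh '' {y : Fin d → ℝ | (fderiv ℝ hh y).det = 0}) :=
    hh.isClosed_image.2 hZc
  have hper : ∀ (y : Fin d → ℝ) (k : Fin d → ℤ), fderiv ℝ hh (y + zv k) = fderiv ℝ hh y := by
    intro y k
    have h1 : (fun z => hh (z + zv k)) = fun z => hh z + zv (A.mulVec k) := by
      funext z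
      exact hc.equiv z k
    rw [← fderiv_comp_add_right, h1, fderiv_add_const]
  have hSp : ∀ y ∈ hh '' {y : Fin d → ℝ | (fderiv ℝ hh y).det = 0}, ∀ k : Fin d → ℤ,
      y + zv k ∈ hh '' {y : Fin d → ℝ | (fderiv ℝ hh y).det = 0} := by
    rintro _ ⟨x, hx, rfl⟩ k
    refine ⟨x + zv (B.mulVec k), ?_, ?_⟩
    · show (fderiv ℝ hh (x + zv (B.mulVec k))).det = 0
      rw [hper]
      exact hx
    · rw [hc.equiv, Matrix.mulVec_mulVec, hc.AB, Matrix.one_mulVec]
  have hinv : ∀ y, (fderiv ℝ hh y).det = 0 ↔ (fderiv ℝ hh (F y)).det = 0 := by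
    intro y
    have h1 : fderiv ℝ (fun z => hh (F z)) y = fderiv ℝ hh y := by
      have h2 : (fun z => hh (F z)) = fun z => hh z + (α + zv m) := by
        funext z
        rw [hc.conj, add_assoc]
      rw [h2, fderiv_add_const]
    have h3 : fderiv ℝ (fun z => hh (F z)) y = (fderiv ℝ hh (F y)).comp (fderiv ℝ F y) :=
      fderiv_comp y (hdiff (F y)) (hdF y)
    have h4 : (fderiv ℝ G (F y)).comp (fderiv ℝ F y) = ContinuousLinearMap.id ℝ _ := by
      rw [← fderiv_comp y (hdG (F y)) (hdF y)]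
      have h5 : G ∘ F = id := funext hS.left
      rw [h5, fderiv_id]
    have h6 : (fderiv ℝ F y).det ≠ 0 := by
      intro h7
      have h8 := congrArg ContinuousLinearMap.det h4
      rw [d2_det_comp, h7, mul_zero] at h8
      unfold ContinuousLinearMap.det at h8
      rw [ContinuousLinearMap.coe_id, LinearMap.det_id] at h8
      exact zero_ne_one h8
    rw [← h1, h3, d2_det_comp, mul_eq_zero, or_iff_left h6]
  have hSi : ∀ y, y ∈ hh '' {y : Fin d → ℝ | (fderiv ℝ hh y).det = 0} ↔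
      y + α ∈ hh '' {y : Fin d → ℝ | (fderiv ℝ hh y).det = 0} := by
    intro y
    constructor
    · rintro ⟨x, hx, rfl⟩
      have h1 : hh (F x) ∈ hh '' {y : Fin d → ℝ | (fderiv ℝ hh y).det = 0} :=
        ⟨F x, (hinv x).1 hx, rfl⟩
      have h2 := hSp _ h1 (-m)
      rw [hc.conj, add_assoc _ (zv m), ← d2_zv_add, add_neg_cancel] at h2
      have h3 : zv (0 : Fin d → ℤ) = 0 := by
        funext i
        simp [zv]
      rwa [h3, add_zero] at h2
    · intro hy
      have h1 := hSp _ hy m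
      have h2 : y + α + zv m = hh (F (hh.symm y)) := by
        rw [hc.conj, Homeomorph.apply_symm_apply]
      rw [h2] at h1
      obtain ⟨x, hx, hx'⟩ := h1
      have h3 : x = F (hh.symm y) := hh.injective hx'
      rw [h3] at hx
      exact ⟨hh.symm y, (hinv _).2 hx, Homeomorph.apply_symm_apply _ _⟩
  have huniv := closed_invariant α hα _ hSc ⟨hh x, x, h0, rfl⟩ hSp hSi
  have hZ : ∀ y, (fderiv ℝ hh y).det = 0 := by
    intro y
    have h1 : hh y ∈ hh '' {y : Fin d → ℝ | (fderiv ℝ hh y).det = 0} := by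
      rw [huniv]
      exact Set.mem_univ _
    obtain ⟨z, hz, hz'⟩ := h1
    rw [← hh.injective hz']
    exact hz
  have hvol := MeasureTheory.addHaar_image_eq_zero_of_det_fderivWithin_eq_zero
    (MeasureTheory.volume : MeasureTheory.Measure (Fin d → ℝ)) (s := Set.univ) (f := hh)
    (f' := fun y => fderiv ℝ hh y) (fun y _ => (hdiff y).hasFDerivAt.hasFDerivWithinAt)
    (fun y _ => hZ y)
  rw [Set.image_univ, hh.surjective.range_eq] at hvol
  exact (isOpen_univ.measure_ne_zero _ Set.univ_nonempty) hvol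

end Pool.Agent.Lib.H47C
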