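import Pool.Agent.Lib.H14U.Main

/-!
H47C, MP_ef0847_an: closed coboundary space and slow growth of the derivatives of the iterates
imply that the conjugacy is smooth and the rotation vector is Diophantine.
Paper proof: Lib/H47C/PROOF.md.
Everything is done with lifts `F : (Fin d → ℝ) → (Fin d → ℝ)` of torus maps; `zv`, `Per`, `Sys`,
`ClosedCob`, `Rigid`, `pr` are from H14U.
-/

set_option autoImplicit false

open scoped ContDiff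

namespace Pool.Agent.Lib.H47C

open Pool.Agent.Lib.H14U

/-- An integer matrix acting on real vectors. -/
def act {d : ℕ} (A : Matrix (Fin d) (Fin d) ℤ) (x : Fin d → ℝ) : Fin d → ℝ :=
  fun i => ∑ j, (A i j : ℝ) * x j

/-- `hh` is the lift of a conjugacy with linear part `A` (inverse `B`). -/
structure Conj {d : ℕ} (F : (Fin d → ℝ) → (Fin d → ℝ)) (α : Fin d → ℝ)
    (hh : (Fin d → ℝ) ≃ₜ (Fin d → ℝ)) (A B : Matrix (Fin d) (Fin d) ℤ) (m : Fin d → ℤ) : Prop where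
  AB : A * B = 1
  BA : B * A = 1
  equiv : ∀ (x : Fin d → ℝ) (k : Fin d → ℤ), hh (x + zv k) = hh x + zv (A.mulVec k)
  conj : ∀ x, hh (F x) = hh x + α + zv m

/-- Slow growth: for every `r` there is `s ≥ r` with `liminf_n ‖D^s F^n‖^r / n^s = 0`. -/
def SlowGrowth {d : ℕ} (F : (Fin d → ℝ) → (Fin d → ℝ)) : Prop :=
  ∀ r : ℕ, 1 ≤ r → ∃ s : ℕ, r ≤ s ∧ ∀ ε : ℝ, 0 < ε → ∀ N : ℕ, ∃ n : ℕ, N ≤ n ∧
    ∀ x, ‖iteratedFDeriv ℝ s (F^[n]) x‖ ^ r ≤ ε * (n : ℝ) ^ s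

/-- `(1/n)(F^n - id)` gets close to the constant `ρ` in every `C^r`. -/
def Approx {d : ℕ} (F : (Fin d → ℝ) → (Fin d → ℝ)) (ρ : Fin d → ℝ) : Prop :=
  ∀ (r : ℕ) (ε : ℝ), 0 < ε → ∃ n : ℕ, 1 ≤ n ∧ ∀ j, j ≤ r → ∀ x,
    ‖iteratedFDeriv ℝ j (fun y => (n : ℝ)⁻¹ • (F^[n] y - y) - ρ) x‖ ≤ ε

/-- The averages `- (1/n) ∑_{j<n} (F^j x - x)`. -/
noncomputable def W {d : ℕ} (F : (Fin d → ℝ) → (Fin d → ℝ)) (n : ℕ) (x : Fin d → ℝ) :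
    Fin d → ℝ := -((n : ℝ)⁻¹ • ∑ j ∈ Finset.range n, (F^[j] x - x))

/-- The Diophantine condition. -/
def Dio {d : ℕ} (α : Fin d → ℝ) : Prop :=
  ∃ C : ℝ, 0 < C ∧ ∃ τ : ℝ, 0 < τ ∧ ∀ k : Fin d → ℤ, k ≠ 0 → ∀ m : ℤ,
    C / (∑ i, |(k i : ℝ)|) ^ τ ≤ |∑ i, (k i : ℝ) * α i - (m : ℝ)|

/-- The linear form `k · y`. -/
def dotk {d : ℕ} (k : Fin d → ℤ) (y : Fin d → ℝ) : ℝ := ∑ i, (k i : ℝ) * y i

/-- The `ℓ¹` norm of `k`. -/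
def l1 {d : ℕ} (k : Fin d → ℤ) : ℝ := ∑ i, |(k i : ℝ)|

end Pool.Agent.Lib.H47C
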