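import Pool.Agent.Lib.H47C.Defs

/-! Chunk E1 of H47C (MP_ef0847_an). -/

set_option autoImplicit false

open scoped ContDiff

namespace Pool.Agent.Lib.H47C

open Pool.Agent.Lib.H14U

/-- (S) The inverse of a smooth homeomorphism with invertible derivatives is smooth:
`Homeomorph.contDiff_symm` with
`f₀' x = ContinuousLinearMap.toContinuousLinearEquivOfDetNeZero (fderiv ℝ hh x) (h x)`. -/
theorem symm_smooth {d : ℕ} {hh : (Fin d → ℝ) ≃ₜ (Fin d → ℝ)} (hsm : ContDiff ℝ ∞ hh)
    (h : ∀ x, (fderiv ℝ hh x).det ≠ 0) : ContDiff ℝ ∞ hh.symm := by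
  refine hh.contDiff_symm
    (f₀' := fun x => ContinuousLinearMap.toContinuousLinearEquivOfDetNeZero (fderiv ℝ hh x) (h x))
    (fun x => ?_) hsm
  rw [ContinuousLinearMap.coe_toContinuousLinearEquivOfDetNeZero]
  exact (hsm.differentiable (by simp) x).hasFDerivAt

end Pool.Agent.Lib.H47C
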