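import Pool.Agent.Lib.H47C.Defs

/-! Chunk R3 of H47C (MP_ef0847_an). -/

set_option autoImplicit false

open scoped ContDiff

namespace Pool.Agent.Lib.H47C

open Pool.Agent.Lib.H14U

/-- (S/M) Landau's inequality for the sup norms. Proof. All three families are bounded above
(`BddAbove`), so `‖D^j f x‖ ≤ N_j := ⨆ x, ‖D^j f x‖` (`le_ciSup`). `landau_iter` (with `i = j - 1`)
gives `‖D^j f x‖ ≤ 2 N_{j-1} / t + N_{j+1} t` for all `t > 0` and `x`, so
`N_j ≤ 2 N_{j-1} / t + N_{j+1} t` (`ciSup_le`, `Nonempty`). With `a = N_{j-1}`, `b = N_{j+1} ≥ 0`: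
if `a, b > 0` take `t = √(2 a / b)`; if `b = 0` let `t → ∞`; if `a = 0` let `t → 0`
(or in one stroke: for `ε > 0` take `t = √(2 (a + ε) / (b + ε))`,
`N_j ^ 2 ≤ 8 (a + ε) (b + ε)`, `ε → 0`). -/
theorem landau_sup {V W' : Type*} [NormedAddCommGroup V] [NormedSpace ℝ V]
    [NormedAddCommGroup W'] [NormedSpace ℝ W'] {f : V → W'} (hf : ContDiff ℝ ∞ f)
    (hb : ∀ j, ∃ C, ∀ x, ‖iteratedFDeriv ℝ j f x‖ ≤ C) (j : ℕ) (hj : 1 ≤ j) :
    (⨆ x, ‖iteratedFDeriv ℝ j f x‖) ^ 2 ≤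
      8 * (⨆ x, ‖iteratedFDeriv ℝ (j - 1) f x‖) * (⨆ x, ‖iteratedFDeriv ℝ (j + 1) f x‖) := by
  obtain ⟨i, rfl⟩ : ∃ i, j = i + 1 := ⟨j - 1, by omega⟩
  rw [show i + 1 - 1 = i from rfl]
  have hbdd : ∀ j, BddAbove (Set.range fun x => ‖iteratedFDeriv ℝ j f x‖) := by
    intro j
    obtain ⟨C, hC⟩ := hb j
    exact ⟨C, by rintro _ ⟨x, rfl⟩; exact hC x⟩
  set a := ⨆ x, ‖iteratedFDeriv ℝ i f x‖ with ha
  set b := ⨆ x, ‖iteratedFDeriv ℝ (i + 1 + 1) f x‖ with hbdef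
  set c := ⨆ x, ‖iteratedFDeriv ℝ (i + 1) f x‖ with hc
  have ha0 : 0 ≤ a := Real.iSup_nonneg fun x => norm_nonneg _
  have hb0 : 0 ≤ b := Real.iSup_nonneg fun x => norm_nonneg _
  have hc0 : 0 ≤ c := Real.iSup_nonneg fun x => norm_nonneg _
  have key : ∀ t : ℝ, 0 < t → c ≤ 2 * a / t + b * t := by
    intro t ht
    refine ciSup_le fun x => ?_
    exact landau_iter hf i a b (fun y => le_ciSup (hbdd i) y) (fun y => le_ciSup (hbdd (i + 2)) y)
      t ht x
  have hsq : ∀ ε : ℝ, 0 < ε → c ^ 2 ≤ 8 * (a + ε) * (b + ε) := by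
    intro ε hε
    have hab : 0 < a + ε := by linarith
    have hbb : 0 < b + ε := by linarith
    set t := Real.sqrt (2 * (a + ε) / (b + ε)) with ht
    have ht0 : 0 < t := Real.sqrt_pos.2 (by positivity)
    have ht2 : t ^ 2 = 2 * (a + ε) / (b + ε) := Real.sq_sqrt (by positivity)
    have h1 : c ≤ 2 * (a + ε) / t + (b + ε) * t := by
      refine (key t ht0).trans ?_
      have h2 : 2 * a / t ≤ 2 * (a + ε) / t := by
        apply div_le_div_of_nonneg_right _ ht0.le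
        linarith
      have h3 : b * t ≤ (b + ε) * t := by nlinarith
      linarith
    have h4 : 2 * (a + ε) / t = (b + ε) * t := by
      rw [div_eq_iff ht0.ne']
      have : (b + ε) * t * t = (b + ε) * t ^ 2 := by ring
      rw [this, ht2]
      field_simp
    rw [h4] at h1
    have h5 : c ≤ 2 * ((b + ε) * t) := by linarith
    have h6 : c ^ 2 ≤ (2 * ((b + ε) * t)) ^ 2 := pow_le_pow_left₀ hc0 h5 2
    refine h6.trans (le_of_eq ?_)
    have : (2 * ((b + ε) * t)) ^ 2 = 4 * (b + ε) ^ 2 * t ^ 2 := by ring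
    rw [this, ht2]
    field_simp
    ring
  refine le_of_forall_pos_le_add fun δ hδ => ?_
  set K := 8 * (a + b + 1) with hK
  have hK0 : 0 < K := by rw [hK]; linarith
  set ε := min 1 (δ / K) with hε
  have hε0 : 0 < ε := lt_min one_pos (by positivity)
  have hε1 : ε ≤ 1 := min_le_left _ _
  have hε2 : ε * K ≤ δ := by
    have : ε ≤ δ / K := min_le_right _ _
    rwa [le_div_iff₀ hK0] at this
  refine (hsq ε hε0).trans ?_
  have : 8 * (a + ε) * (b + ε) = 8 * a * b + 8 * ε * (a + b + ε) := by ring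
  rw [this]
  have h7 : 8 * ε * (a + b + ε) ≤ ε * K := by
    rw [hK]
    nlinarith
  linarith

end Pool.Agent.Lib.H47C
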