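import Pool.Agent.Lib.H47C.R2
import Pool.Agent.Lib.H47C.R3

/-! Chunk R4 of H47C (MP_ef0847_an). -/

set_option autoImplicit false

open scoped ContDiff

namespace Pool.Agent.Lib.H47C

open Pool.Agent.Lib.H14U

/-- (S/M) Kolmogorov's inequality. Proof: `kolmogorov_seq` for `a j = ⨆ x, ‖D^j f x‖`
(`landau_sup`; nonnegative: `Real.iSup_nonneg`), `‖D^j f x‖ ≤ a j`, `a 0 ≤ M`
(`norm_iteratedFDeriv_zero`), `a s ≤ b` (`ciSup_le`). -/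
theorem interp (s : ℕ) : ∃ C : ℝ, 1 ≤ C ∧ ∀ {V W' : Type} [NormedAddCommGroup V] [NormedSpace ℝ V]
    [NormedAddCommGroup W'] [NormedSpace ℝ W'] (f : V → W'), ContDiff ℝ ∞ f →
    (∀ j, ∃ C, ∀ x, ‖iteratedFDeriv ℝ j f x‖ ≤ C) → ∀ M b : ℝ, (∀ x, ‖f x‖ ≤ M) →
    (∀ x, ‖iteratedFDeriv ℝ s f x‖ ≤ b) → ∀ j, j ≤ s → ∀ x,
    ‖iteratedFDeriv ℝ j f x‖ ^ s ≤ C * M ^ (s - j) * b ^ j := by
  obtain ⟨C, hC1, hC⟩ := kolmogorov_seq s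
  refine ⟨C, hC1, ?_⟩
  intro V W' _ _ _ _ f hf hb M b hM hbs j hj x
  have hbdd : ∀ j, BddAbove (Set.range fun x => ‖iteratedFDeriv ℝ j f x‖) := by
    intro j
    obtain ⟨C, hC⟩ := hb j
    exact ⟨C, by rintro _ ⟨x, rfl⟩; exact hC x⟩
  have ha0 : ∀ j, 0 ≤ ⨆ x, ‖iteratedFDeriv ℝ j f x‖ := fun j =>
    Real.iSup_nonneg fun x => norm_nonneg _
  have h1 := hC (fun j => ⨆ x, ‖iteratedFDeriv ℝ j f x‖) ha0
    (fun i hi _ => landau_sup hf hb i hi) j hj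
  have h2 : ‖iteratedFDeriv ℝ j f x‖ ^ s ≤ (⨆ x, ‖iteratedFDeriv ℝ j f x‖) ^ s :=
    pow_le_pow_left₀ (norm_nonneg _) (le_ciSup (hbdd j) x) s
  have h3 : (⨆ x, ‖iteratedFDeriv ℝ 0 f x‖) ≤ M :=
    ciSup_le fun x => by rw [norm_iteratedFDeriv_zero]; exact hM x
  have h4 : (⨆ x, ‖iteratedFDeriv ℝ s f x‖) ≤ b := ciSup_le hbs
  have h5 : (⨆ x, ‖iteratedFDeriv ℝ 0 f x‖) ^ (s - j) ≤ M ^ (s - j) :=
    pow_le_pow_left₀ (ha0 0) h3 _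
  have h6 : (⨆ x, ‖iteratedFDeriv ℝ s f x‖) ^ j ≤ b ^ j := pow_le_pow_left₀ (ha0 s) h4 _
  refine h2.trans (h1.trans ?_)
  have hM0 : 0 ≤ M := (ha0 0).trans h3
  refine mul_le_mul (mul_le_mul_of_nonneg_left h5 (by linarith)) h6 (pow_nonneg (ha0 s) _) ?_
  have : 0 ≤ C := by linarith
  positivity

end Pool.Agent.Lib.H47C
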