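import Pool.Agent.Lib.H47C.Defs

/-! Chunk R5a of H47C (MP_ef0847_an). -/

set_option autoImplicit false

open scoped ContDiff

namespace Pool.Agent.Lib.H47C

open Pool.Agent.Lib.H14U

/-- (M) Real numbers. Proof. Take `ε' ≤ 1/2` with `(C (1 + M) 2)^(s r) * 2 ε' ≤ ε ^ (s r)` (or with any
convenient larger constant `K = K(C, M, s, r)` in place of the first factor) and `N` with
`ε' N ≥ 1` and `M ≤ ε N`. Let `n ≥ N`, `b ≥ 0` with `b ^ r ≤ ε' n ^ s`.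
`(b + 1) ^ r ≤ 2 ^ r (b ^ r + 1) ≤ 2 ^ r * 2 ε' n ^ s` (`add_pow_le_pow_mul_pow_of_add_eq_one`, or
`(b+1)^r ≤ (2 max b 1)^r`; `1 ≤ ε' n ≤ ε' n ^ s`). For `1 ≤ j ≤ r`:
`(C M^(s-j) (b+1)^j) ^ r ≤ C^r (1+M)^(s r) (2^r 2 ε' n^s)^j ≤ K 2 ε' n^(s j) ≤ (ε n) ^ (s r)`
(`(2 ε')^j ≤ 2 ε'`, `n^(s j) ≤ n^(s r)`), so if `y ^ s ≤ C M^(s-j) (b+1)^j` then
`(y ^ s) ^ r ≤ (ε n) ^ (s r)`, `y ≤ ε n` (`pow_le_pow_iff_left₀`, `s r ≠ 0`).
For `j = 0` use `y ≤ M ≤ ε n`. -/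
theorem real_interp (C M : ℝ) (hC : 1 ≤ C) (hM : 0 ≤ M) (r s : ℕ) (hr : 1 ≤ r) (hs : r ≤ s)
    (ε : ℝ) (hε : 0 < ε) :
    ∃ ε' : ℝ, 0 < ε' ∧ ∃ N : ℕ, 1 ≤ N ∧ ∀ n : ℕ, N ≤ n → ∀ b : ℝ, 0 ≤ b →
      b ^ r ≤ ε' * (n : ℝ) ^ s → M ≤ ε * n ∧ ∀ j : ℕ, 1 ≤ j → j ≤ r → ∀ y : ℝ, 0 ≤ y →
      y ^ s ≤ C * M ^ (s - j) * (b + 1) ^ j → y ≤ ε * n := by
  have hs1 : 1 ≤ s := hr.trans hs
  set K : ℝ := C ^ r * (1 + M) ^ (s * r) * (2 ^ r) ^ r with hK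
  have hC0 : 0 < C := lt_of_lt_of_le one_pos hC
  have hK0 : 0 < K := by rw [hK]; positivity
  set ε' : ℝ := min (1 / 2) (ε ^ (s * r) / (2 * K)) with hε'
  have hε'0 : 0 < ε' := lt_min (by norm_num) (by positivity)
  have hε'1 : 2 * ε' ≤ 1 := by
    have : ε' ≤ 1 / 2 := min_le_left _ _
    linarith
  have hε'2 : K * (2 * ε') ≤ ε ^ (s * r) := by
    have : ε' ≤ ε ^ (s * r) / (2 * K) := min_le_right _ _
    rw [le_div_iff₀ (by positivity)] at this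
    linarith
  obtain ⟨N₁, hN₁⟩ := exists_nat_ge (1 / ε')
  obtain ⟨N₂, hN₂⟩ := exists_nat_ge (M / ε)
  refine ⟨ε', hε'0, max 1 (max N₁ N₂), le_max_left _ _, fun n hn b hb hbn => ?_⟩
  have hn1 : 1 ≤ n := (le_max_left _ _).trans hn
  have hnN₁ : N₁ ≤ n := ((le_max_left _ _).trans (le_max_right _ _)).trans hn
  have hnN₂ : N₂ ≤ n := ((le_max_right _ _).trans (le_max_right _ _)).trans hn
  have hnR : (1 : ℝ) ≤ n := by exact_mod_cast hn1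
  have h1 : 1 ≤ ε' * n := by
    have h2 : 1 / ε' ≤ (n : ℝ) := hN₁.trans (by exact_mod_cast hnN₁)
    rw [div_le_iff₀ hε'0] at h2
    linarith
  have h2 : M ≤ ε * n := by
    have h2 : M / ε ≤ (n : ℝ) := hN₂.trans (by exact_mod_cast hnN₂)
    rw [div_le_iff₀ hε] at h2
    linarith
  have h3 : 1 ≤ ε' * (n : ℝ) ^ s := by
    have h4 : (n : ℝ) ≤ (n : ℝ) ^ s := by
      calc (n : ℝ) = (n : ℝ) ^ 1 := (pow_one _).symm
        _ ≤ (n : ℝ) ^ s := pow_le_pow_right₀ hnR hs1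
    calc 1 ≤ ε' * n := h1
      _ ≤ ε' * (n : ℝ) ^ s := mul_le_mul_of_nonneg_left h4 hε'0.le
  have h5 : (b + 1) ^ r ≤ 2 ^ r * (2 * ε' * (n : ℝ) ^ s) := by
    have h6 : b + 1 ≤ 2 * max b 1 := by
      have := le_max_left b 1
      have := le_max_right b 1
      linarith
    have h7 : (max b 1) ^ r ≤ b ^ r + 1 := by
      rcases le_total b 1 with h | h
      · rw [max_eq_right h, one_pow]
        have : 0 ≤ b ^ r := pow_nonneg hb _
        linarith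
      · rw [max_eq_left h]
        linarith
    calc (b + 1) ^ r ≤ (2 * max b 1) ^ r := pow_le_pow_left₀ (by linarith) h6 r
      _ = 2 ^ r * (max b 1) ^ r := mul_pow _ _ _
      _ ≤ 2 ^ r * (b ^ r + 1) := mul_le_mul_of_nonneg_left h7 (by positivity)
      _ ≤ 2 ^ r * (2 * ε' * (n : ℝ) ^ s) := by
          refine mul_le_mul_of_nonneg_left ?_ (by positivity)
          linarith
  refine ⟨h2, fun j hj1 hjr y hy hyj => ?_⟩
  have hn0 : (0 : ℝ) ≤ n := by linarith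
  have hM1 : M ^ (s - j) ≤ (1 + M) ^ s := by
    calc M ^ (s - j) ≤ (1 + M) ^ (s - j) := pow_le_pow_left₀ hM (by linarith) _
      _ ≤ (1 + M) ^ s := pow_le_pow_right₀ (by linarith) (Nat.sub_le _ _)
  have h8 : (y ^ s) ^ r ≤ (ε * n) ^ (s * r) := by
    calc (y ^ s) ^ r ≤ (C * M ^ (s - j) * (b + 1) ^ j) ^ r :=
          pow_le_pow_left₀ (pow_nonneg hy _) hyj r
      _ = C ^ r * (M ^ (s - j)) ^ r * ((b + 1) ^ r) ^ j := by
          rw [mul_pow, mul_pow, ← pow_mul, ← pow_mul, ← pow_mul, mul_comm j r]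
      _ ≤ C ^ r * ((1 + M) ^ s) ^ r * (2 ^ r * (2 * ε' * (n : ℝ) ^ s)) ^ j := by
          have a1 : (M ^ (s - j)) ^ r ≤ ((1 + M) ^ s) ^ r :=
            pow_le_pow_left₀ (pow_nonneg hM _) hM1 r
          have a2 : ((b + 1) ^ r) ^ j ≤ (2 ^ r * (2 * ε' * (n : ℝ) ^ s)) ^ j :=
            pow_le_pow_left₀ (by positivity) h5 j
          exact mul_le_mul (mul_le_mul_of_nonneg_left a1 (by positivity)) a2 (by positivity)
            (by positivity)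
      _ = C ^ r * (1 + M) ^ (s * r) * ((2 ^ r) ^ j * ((2 * ε') ^ j * ((n : ℝ) ^ s) ^ j)) := by
          rw [mul_pow, mul_pow, ← pow_mul (1 + M) s r]
      _ ≤ C ^ r * (1 + M) ^ (s * r) * ((2 ^ r) ^ r * ((2 * ε') * ((n : ℝ) ^ s) ^ r)) := by
          have a1 : ((2 : ℝ) ^ r) ^ j ≤ (2 ^ r) ^ r :=
            pow_le_pow_right₀ (one_le_pow₀ (by norm_num)) hjr
          have a2 : (2 * ε') ^ j ≤ 2 * ε' := by
            calc (2 * ε') ^ j ≤ (2 * ε') ^ 1 :=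
                  pow_le_pow_of_le_one (by positivity) hε'1 hj1
              _ = 2 * ε' := pow_one _
          have a3 : ((n : ℝ) ^ s) ^ j ≤ ((n : ℝ) ^ s) ^ r :=
            pow_le_pow_right₀ (one_le_pow₀ hnR) hjr
          have a4 : (2 * ε') ^ j * ((n : ℝ) ^ s) ^ j ≤ (2 * ε') * ((n : ℝ) ^ s) ^ r :=
            mul_le_mul a2 a3 (by positivity) (by positivity)
          refine mul_le_mul_of_nonneg_left ?_ (by positivity)
          exact mul_le_mul a1 a4 (by positivity) (by positivity)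
      _ = K * (2 * ε') * (n : ℝ) ^ (s * r) := by
          rw [hK, ← pow_mul (n : ℝ) s r]; ring
      _ ≤ ε ^ (s * r) * (n : ℝ) ^ (s * r) :=
          mul_le_mul_of_nonneg_right hε'2 (by positivity)
      _ = (ε * n) ^ (s * r) := (mul_pow _ _ _).symm
  rw [← pow_mul] at h8
  have hsr : s * r ≠ 0 := by positivity
  exact le_of_pow_le_pow_left₀ hsr (by positivity) h8

end Pool.Agent.Lib.H47C
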