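import Pool.Agent.Lib.H47C.R1
import Pool.Agent.Lib.H47C.R4
import Pool.Agent.Lib.H47C.R5a

/-! Chunk R5b of H47C (MP_ef0847_an). -/

set_option autoImplicit false

open scoped ContDiff

namespace Pool.Agent.Lib.H47C

open Pool.Agent.Lib.H14U

/-- (M) Slow growth implies the approximation. Proof. We may assume `r ≥ 1` (replace `r` by
`max r 1`). `s` from `SlowGrowth`, `C` from `interp s`, `M` from `rot_bounded`; `ε', N` from
`real_interp`; `n ≥ N` (`≥ 1`) from `SlowGrowth` with `ε'`. Let `b = ⨆ x, ‖D^s F^[n] x‖` or better: put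
`b = (sup)`; simplest: `b` a real number `≥ 0` with `‖D^s F^[n] x‖ ≤ b` for all `x` and
`b ^ r ≤ ε' n ^ s`, for instance `b = (ε' n ^ s) ^ (1 / r)` (`Real.rpow_natCast_mul`, `Real.pow_rpow_inv_natCast`,
`Real.rpow_inv_natCast_pow`; `‖..‖ ≤ b` by `pow_le_pow_iff_left₀`). Let
`f y = F^[n] y - y - n ρ`, `ρ = act B (α + zv m)`: smooth (`iter_smooth`), periodic (`iter_comm`), so all
its derivatives are bounded (`per_iteratedFDeriv`, `per_bounded`), `‖f‖ ≤ M`, and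
`‖D^s f x‖ ≤ b + 1`: `f = F^[n] - (id + const)`, `iteratedFDeriv_sub`, and
`‖D^s (fun y => y + c) x‖ ≤ 1` for `s ≥ 1` (`s = 1`: the identity; `s ≥ 2`: zero, e.g.
`norm_iteratedFDeriv_le`-type lemma for `fderiv` constant). `interp` gives
`‖D^j f x‖ ^ s ≤ C M^(s-j) (b+1)^j` for `j ≤ s`; `real_interp`: `‖D^j f x‖ ≤ ε n` for
`1 ≤ j ≤ r`, and `‖f x‖ ≤ M ≤ ε n` for `j = 0`. Finally
`(n)⁻¹ • (F^[n] y - y) - ρ = (n)⁻¹ • f y`, `iteratedFDeriv_const_smul_apply`, norm `≤ ε`. -/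
theorem approx_of_slow {d : ℕ} {F G : (Fin d → ℝ) → (Fin d → ℝ)} (hS : Sys F G) {α : Fin d → ℝ}
    {hh : (Fin d → ℝ) ≃ₜ (Fin d → ℝ)} {A B : Matrix (Fin d) (Fin d) ℤ} {m : Fin d → ℤ}
    (hc : Conj F α hh A B m) (hg : SlowGrowth F) : Approx F (act B (α + zv m)) := by
  intro r ε hε
  obtain ⟨s, hrs, hsg⟩ := hg (max r 1) (le_max_right _ _)
  obtain ⟨C, hC, hint⟩ := interp s
  obtain ⟨M, hM, hrot⟩ := rot_bounded hc
  obtain ⟨ε', hε', N, hN, hreal⟩ := real_interp C M hC hM (max r 1) s (le_max_right _ _) hrs ε hε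
  obtain ⟨n, hNn, hn⟩ := hsg ε' hε' N
  have hs1 : 1 ≤ s := (le_max_right r 1).trans hrs
  have hn1 : 1 ≤ n := hN.trans hNn
  have hnpos : (0 : ℝ) < n := by exact_mod_cast hn1
  have hr0 : max r 1 ≠ 0 := by
    have := le_max_right r 1
    omega
  have hx0 : (0 : ℝ) ≤ ε' * (n : ℝ) ^ s := by positivity
  obtain ⟨b, hb0, hbr⟩ : ∃ b : ℝ, 0 ≤ b ∧ b ^ (max r 1) = ε' * (n : ℝ) ^ s :=
    ⟨(ε' * (n : ℝ) ^ s) ^ (((max r 1 : ℕ) : ℝ)⁻¹), Real.rpow_nonneg hx0 _,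
      Real.rpow_inv_natCast_pow hx0 hr0⟩
  have hb : ∀ x, ‖iteratedFDeriv ℝ s (F^[n]) x‖ ≤ b := fun x => by
    rw [← pow_le_pow_iff_left₀ (norm_nonneg _) hb0 hr0, hbr]
    exact hn x
  obtain ⟨hMn, hrest⟩ := hreal n hNn b hb0 hbr.le
  set ρ : Fin d → ℝ := act B (α + zv m) with hρ
  have hFs : ContDiff ℝ ∞ (F^[n]) := iter_smooth hS.smoothF n
  have hgs : ContDiff ℝ ∞ (fun y : Fin d → ℝ => y + (n : ℝ) • ρ) := contDiff_id.add contDiff_const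
  have hle : ∀ j : ℕ, ((j : ℕ∞ω) : ℕ∞ω) ≤ ∞ := fun j => by exact_mod_cast le_top
  have hfs : ContDiff ℝ ∞ (fun y => F^[n] y - (y + (n : ℝ) • ρ)) := hFs.sub hgs
  have hper : Per (fun y => F^[n] y - (y + (n : ℝ) • ρ)) := by
    intro x k
    show F^[n] (x + zv k) - (x + zv k + (n : ℝ) • ρ) = F^[n] x - (x + (n : ℝ) • ρ)
    rw [iter_comm hS.comm]
    abel
  have hbdd : ∀ j, ∃ C, ∀ x,
      ‖iteratedFDeriv ℝ j (fun y => F^[n] y - (y + (n : ℝ) • ρ)) x‖ ≤ C := by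
    intro j
    obtain ⟨C', _, hC'⟩ := per_bounded (hfs.continuous_iteratedFDeriv (hle j))
      (per_iteratedFDeriv hper j)
    exact ⟨C', hC'⟩
  have hfM : ∀ x, ‖F^[n] x - (x + (n : ℝ) • ρ)‖ ≤ M := by
    intro x
    rw [← sub_sub]
    exact hrot n x
  have hid : ∀ x, ‖iteratedFDeriv ℝ s (fun y : Fin d → ℝ => y + (n : ℝ) • ρ) x‖ ≤ 1 := by
    intro x
    obtain ⟨t, rfl⟩ : ∃ t, s = t + 1 := ⟨s - 1, by omega⟩
    rw [← norm_iteratedFDeriv_fderiv]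
    have h1 : fderiv ℝ (fun y : Fin d → ℝ => y + (n : ℝ) • ρ) =
        fun _ => ContinuousLinearMap.id ℝ (Fin d → ℝ) := by
      funext y
      exact ((hasFDerivAt_id y).add_const _).fderiv
    rw [h1]
    rcases Nat.eq_zero_or_pos t with h0 | h0
    · subst h0
      rw [norm_iteratedFDeriv_zero]
      exact ContinuousLinearMap.norm_id_le
    · rw [iteratedFDeriv_const_of_ne (by omega)]
      simp
  have hsb : ∀ x, ‖iteratedFDeriv ℝ s (fun y => F^[n] y - (y + (n : ℝ) • ρ)) x‖ ≤ b + 1 := by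
    intro x
    have h1 : iteratedFDeriv ℝ s (fun y => F^[n] y - (y + (n : ℝ) • ρ)) x =
        iteratedFDeriv ℝ s (F^[n]) x
          - iteratedFDeriv ℝ s (fun y : Fin d → ℝ => y + (n : ℝ) • ρ) x :=
      iteratedFDeriv_sub_apply ((hFs.of_le (hle s)).contDiffAt) ((hgs.of_le (hle s)).contDiffAt)
    rw [h1]
    exact (norm_sub_le _ _).trans (add_le_add (hb x) (hid x))
  have hkey := hint (fun y => F^[n] y - (y + (n : ℝ) • ρ)) hfs hbdd M (b + 1) hfM hsb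
  refine ⟨n, hn1, fun j hj x => ?_⟩
  have hfin : ‖iteratedFDeriv ℝ j (fun y => F^[n] y - (y + (n : ℝ) • ρ)) x‖ ≤ ε * n := by
    rcases Nat.eq_zero_or_pos j with h0 | h0
    · subst h0
      rw [norm_iteratedFDeriv_zero]
      exact (hfM x).trans hMn
    · have hjr : j ≤ max r 1 := hj.trans (le_max_left _ _)
      exact hrest j h0 hjr _ (norm_nonneg _) (hkey j (hjr.trans hrs) x)
  have heq : (fun y => (n : ℝ)⁻¹ • (F^[n] y - y) - ρ)
      = (n : ℝ)⁻¹ • (fun y => F^[n] y - (y + (n : ℝ) • ρ)) := by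
    funext y
    show (n : ℝ)⁻¹ • (F^[n] y - y) - ρ = (n : ℝ)⁻¹ • (F^[n] y - (y + (n : ℝ) • ρ))
    rw [← sub_sub, smul_sub (n : ℝ)⁻¹ (F^[n] y - y), inv_smul_smul₀ hnpos.ne']
  rw [heq, iteratedFDeriv_const_smul_apply ((hfs.of_le (hle j)).contDiffAt), norm_smul,
    Real.norm_of_nonneg (by positivity)]
  calc (n : ℝ)⁻¹ * ‖iteratedFDeriv ℝ j (fun y => F^[n] y - (y + (n : ℝ) • ρ)) x‖
      ≤ (n : ℝ)⁻¹ * (ε * n) := by gcongr
    _ = ε := by field_simp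

end Pool.Agent.Lib.H47C
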