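import Pool.Agent.Lib.H47C.R1
import Pool.Agent.Lib.H47C.A3

/-! Chunk V1 of H47C (MP_ef0847_an). -/

set_option autoImplicit false

open scoped ContDiff

namespace Pool.Agent.Lib.H47C

open Pool.Agent.Lib.H14U

/-- (M) The topological conjugacy is smooth. Proof. `ρ = act B (α + zv m)`, `H x = x - u x` with `u` from
`solve`: `H (F x) = H x + ρ`, `H (x + zv k) = H x + zv k`. `v x = hh x - act A (H x)` is continuous,
periodic (`hc.equiv`, `act_basic`), and `v (F x) = hh x + α + zv m - act A (H x) - act A ρ = v x`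
since `act A ρ = act (A * B) (α + zv m) = α + zv m`. By `Rigid F` every coordinate of `v` is constant:
`hh x = act A (H x) + v 0`, smooth. -/
theorem hh_smooth {d : ℕ} {F G : (Fin d → ℝ) → (Fin d → ℝ)} (hS : Sys F G) (hR : Rigid F)
    {α : Fin d → ℝ} {hh : (Fin d → ℝ) ≃ₜ (Fin d → ℝ)} {A B : Matrix (Fin d) (Fin d) ℤ}
    {m : Fin d → ℤ} (hc : Conj F α hh A B m)
    (u : (Fin d → ℝ) → (Fin d → ℝ)) (hu : ContDiff ℝ ∞ u) (hup : Per u)
    (hsol : ∀ x, F x - x - act B (α + zv m) = u (F x) - u x) :
    ContDiff ℝ ∞ hh := by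
  obtain ⟨hadd, -, hmul, hone, hzv, hsmA⟩ := act_basic A B
  set ρ := act B (α + zv m) with hρ
  have hAρ : act A ρ = α + zv m := by
    rw [hρ, hmul, hc.AB]
    exact (act_basic A B).2.2.2.1 _
  have hv1 : ∀ x k, hh (x + zv k) - act A (x + zv k - u (x + zv k)) =
      hh x - act A (x - u x) := by
    intro x k
    rw [hc.equiv, hup x k]
    have : x + zv k - u x = (x - u x) + zv k := by abel
    rw [this, hadd, hzv]
    abel
  have hv2 : ∀ x, hh (F x) - act A (F x - u (F x)) = hh x - act A (x - u x) := by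
    intro x
    have h1 : F x - u (F x) = (x - u x) + ρ := by
      have := hsol x
      have h2 : F x = (F x - x - ρ) + x + ρ := by abel
      rw [h2, this]
      have h3 : u (F x) - u x + x + ρ - u (u (F x) - u x + x + ρ) =
        u (F x) - u x + x + ρ - u (F x) := by rw [← this, ← h2]
      rw [h3]
      abel
    rw [h1, hadd, hAρ, hc.conj]
    abel
  have hconst : ∀ x, hh x - act A (x - u x) = hh 0 - act A (0 - u 0) := by
    intro x
    funext i
    refine hR (fun y => (hh y - act A (y - u y)) i) ?_ ?_ ?_ x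
    · exact (continuous_apply i).comp (hh.continuous.sub
        (hsmA.continuous.comp (continuous_id.sub hu.continuous)))
    · intro y k
      exact congrFun (hv1 y k) i
    · intro y
      exact congrFun (hv2 y) i
  have heq : (hh : (Fin d → ℝ) → (Fin d → ℝ)) =
      fun x => act A (x - u x) + (hh 0 - act A (0 - u 0)) := by
    funext x
    rw [← hconst x]
    abel
  rw [heq]
  exact (hsmA.comp (contDiff_id.sub hu)).add contDiff_const

end Pool.Agent.Lib.H47C
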