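import Pool.Agent.Lib.H47C.C4
import Pool.Agent.Lib.H47C.R5b
import Pool.Agent.Lib.H47C.V1
import Pool.Agent.Lib.H47C.D2
import Pool.Agent.Lib.H47C.E1
import Pool.Agent.Lib.H47C.B4

/-! Assembly of H47C (MP_ef0847_an). -/

set_option autoImplicit false

open scoped ContDiff

namespace Pool.Agent.Lib.H47C

open Pool.Agent.Lib.H14U

/-- The main theorem. -/
theorem main {d : ℕ} (α : Fin d → ℝ)
    (hα : ∀ k : Fin d → ℤ, k ≠ 0 → ∀ m : ℤ, ∑ i, (k i : ℝ) * α i ≠ (m : ℝ))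
    (F G : (Fin d → ℝ) → (Fin d → ℝ)) (hS : Sys F G)
    (h : (Fin d → AddCircle (1 : ℝ)) ≃ₜ (Fin d → AddCircle (1 : ℝ)))
    (hconj : ∀ x : Fin d → ℝ, h (pr (F x)) = h (pr x) + pr α)
    (hg : SlowGrowth F) (hcl : ClosedCob F) :
    Dio α ∧ ∃ H K : (Fin d → ℝ) → (Fin d → ℝ), ContDiff ℝ ∞ H ∧ ContDiff ℝ ∞ K ∧
      (∀ x, K (H x) = x) ∧ (∀ x, H (K x) = x) ∧ ∀ x, h (pr x) = pr (H x) := by
  have hR : Rigid F := rigid_of_conj α hα F h hconj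
  obtain ⟨hh, A, B, m, hc, hp⟩ := exists_conj α F hS.smoothF.continuous h hconj
  obtain ⟨u, hu, hup, hsol⟩ := solve hS hcl _ (approx_of_slow hS hc hg)
  have hsm := hh_smooth hS hR hc u hu hup hsol
  have hsm' := symm_smooth hsm (det_ne_zero hS hα hc hsm)
  exact ⟨dio hS hR hcl hc hsm, hh, hh.symm, hsm, hsm', hh.symm_apply_apply,
    hh.apply_symm_apply, fun x => (hp x).symm⟩

end Pool.Agent.Lib.H47C
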