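import Pool.Agent.Lib.H47C.Defs

/-! Chunk R1 of H47C (MP_ef0847_an). -/

set_option autoImplicit false

open scoped ContDiff

namespace Pool.Agent.Lib.H47C

open Pool.Agent.Lib.H14U

/-- `act` as a continuous linear map. -/
noncomputable def r1_L {d : ℕ} (A : Matrix (Fin d) (Fin d) ℤ) :
    (Fin d → ℝ) →L[ℝ] (Fin d → ℝ) :=
  LinearMap.toContinuousLinearMap (A.map (fun a : ℤ => (a : ℝ))).mulVecLin

theorem r1_L_apply {d : ℕ} (A : Matrix (Fin d) (Fin d) ℤ) (x : Fin d → ℝ) :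
    act A x = r1_L A x := rfl

theorem r1_map {d : ℕ} (A B : Matrix (Fin d) (Fin d) ℤ) :
    (A * B).map (fun a : ℤ => (a : ℝ)) =
      A.map (fun a : ℤ => (a : ℝ)) * B.map (fun a : ℤ => (a : ℝ)) :=
  Matrix.map_mul (f := Int.castRingHom ℝ)

theorem r1_one {d : ℕ} : (1 : Matrix (Fin d) (Fin d) ℤ).map (fun a : ℤ => (a : ℝ)) = 1 :=
  Matrix.map_one (fun a : ℤ => (a : ℝ)) Int.cast_zero Int.cast_one

/-- (S) `act` is additive, homogeneous and compatible with products and integer vectors. -/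
theorem act_basic {d : ℕ} (A B : Matrix (Fin d) (Fin d) ℤ) :
    (∀ x y, act A (x + y) = act A x + act A y) ∧ (∀ (t : ℝ) x, act A (t • x) = t • act A x) ∧
    (∀ x, act A (act B x) = act (A * B) x) ∧ (∀ x, act (1 : Matrix (Fin d) (Fin d) ℤ) x = x) ∧
    (∀ k, act A (zv k) = zv (A.mulVec k)) ∧ ContDiff ℝ ∞ (act A) := by
  refine ⟨fun x y => ?_, fun t x => ?_, fun x => ?_, fun x => ?_, fun k => ?_, ?_⟩
  · rw [r1_L_apply, r1_L_apply, r1_L_apply, map_add]
  · rw [r1_L_apply, r1_L_apply, map_smul]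
  · show (A.map (fun a : ℤ => (a : ℝ))).mulVec ((B.map (fun a : ℤ => (a : ℝ))).mulVec x) =
      ((A * B).map (fun a : ℤ => (a : ℝ))).mulVec x
    rw [Matrix.mulVec_mulVec, r1_map]
  · show ((1 : Matrix (Fin d) (Fin d) ℤ).map (fun a : ℤ => (a : ℝ))).mulVec x = x
    rw [r1_one, Matrix.one_mulVec]
  · funext i
    show ∑ j, (A i j : ℝ) * (k j : ℝ) = ((∑ j, A i j * k j : ℤ) : ℝ)
    push_cast
    rfl
  · exact (r1_L A).contDiff

/-- (S/M) The displacement of the iterates. Proof. `w y = hh y - act A y` is continuous and periodic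
(`Conj.equiv`, `act A (zv k) = zv (A.mulVec k)`), so bounded, `‖w‖ ≤ K` (`per_bounded`).
`hh (F^[n] x) = hh x + n (α + zv m)` (induction), so
`act A (F^[n] x - x) = w x - w (F^[n] x) + n (α + zv m)`; apply `act B` (`B * A = 1`):
`F^[n] x - x - n act B (α + zv m) = act B (w x - w (F^[n] x))`, norm `≤ C * 2 K`, where `act B` is
bounded on the ball (`‖act B y‖ ≤ (∑ i, ∑ j, |B i j|) ‖y‖`). -/
theorem rot_bounded {d : ℕ} {F : (Fin d → ℝ) → (Fin d → ℝ)} {α : Fin d → ℝ}
    {hh : (Fin d → ℝ) ≃ₜ (Fin d → ℝ)} {A B : Matrix (Fin d) (Fin d) ℤ} {m : Fin d → ℤ}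
    (hc : Conj F α hh A B m) :
    ∃ M : ℝ, 0 ≤ M ∧ ∀ (n : ℕ) x, ‖F^[n] x - x - (n : ℝ) • act B (α + zv m)‖ ≤ M := by
  have hper : Per (fun y => hh y - act A y) := by
    intro x k
    show hh (x + zv k) - act A (x + zv k) = hh x - act A x
    rw [hc.equiv, (act_basic A A).1, (act_basic A A).2.2.2.2.1]
    abel
  have hcont : Continuous (fun y => hh y - act A y) :=
    hh.continuous.sub (r1_L A).continuous
  obtain ⟨K, hK0, hK⟩ := per_bounded hcont hper
  have hit : ∀ (n : ℕ) x, hh (F^[n] x) = hh x + (n : ℝ) • (α + zv m) := by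
    intro n
    induction n with
    | zero => intro x; simp
    | succ n ih =>
      intro x
      rw [Function.iterate_succ_apply', hc.conj, ih, Nat.cast_succ, add_smul, one_smul]
      abel
  have hBA : ∀ x, act B (act A x) = x := by
    intro x
    rw [(act_basic B A).2.2.1, hc.BA]
    exact (act_basic A A).2.2.2.1 x
  refine ⟨‖r1_L B‖ * (K + K), by positivity, fun n x => ?_⟩
  have h1 : F^[n] x - x - (n : ℝ) • act B (α + zv m) =
      r1_L B ((hh x - act A x) - (hh (F^[n] x) - act A (F^[n] x))) := by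
    have h2 : (hh x - act A x) - (hh (F^[n] x) - act A (F^[n] x)) =
        act A (F^[n] x) - act A x - (n : ℝ) • (α + zv m) := by
      rw [hit]
      abel
    rw [h2, map_sub, map_sub, map_smul, ← r1_L_apply, ← r1_L_apply, ← r1_L_apply, hBA, hBA]
  rw [h1]
  refine ((r1_L B).le_opNorm _).trans ?_
  refine mul_le_mul_of_nonneg_left ?_ (norm_nonneg _)
  exact (norm_sub_le _ _).trans (add_le_add (hK x) (hK _))

end Pool.Agent.Lib.H47C
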