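import Pool.Agent.Lib.H47C.Defs

/-! Chunk R2 of H47C (MP_ef0847_an). -/

set_option autoImplicit false

open scoped ContDiff

namespace Pool.Agent.Lib.H47C

open Pool.Agent.Lib.H14U

/-- (M) From the Landau inequalities to the Kolmogorov inequality for real sequences.
Proof by induction on `s`; constant for `s + 1`: `C' = C^(s+1) * (8^s * C)^(s+1)` or anything larger.
`s = 0`: `j = 0`, `1 ≤ C`. (`s = 1`: trivial.) Step from `s ≥ 1` to `s + 1`: let `C` be the constant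
for `s`. If `a s = 0` then `a j ^ s ≤ C a 0 ^ (s-j) * 0 ^ j`, so `a j = 0` for `1 ≤ j ≤ s`, trivial.
Otherwise: `a s ^ 2 ≤ 8 a (s-1) a (s+1)` and `a (s-1) ^ s ≤ C a 0 a s ^ (s-1)` give
`a s ^ (2 s) ≤ 8^s C a 0 a s ^ (s-1) a (s+1) ^ s`, so (dividing by `a s ^ (s-1) > 0`)
`a s ^ (s+1) ≤ 8^s C a 0 a (s+1) ^ s`. For `j ≤ s`:
`(a j ^ (s+1)) ^ s = (a j ^ s) ^ (s+1) ≤ C^(s+1) a 0 ^ ((s-j)(s+1)) (a s ^ (s+1)) ^ j
  ≤ C^(s+1) (8^s C)^j a 0 ^ (s (s+1-j)) a (s+1) ^ (s j) ≤ (C' a 0 ^ (s+1-j) a (s+1) ^ j) ^ s`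
(`C' ≤ C' ^ s`), take the root (`pow_le_pow_left₀` contrapositive, `le_of_pow_le_pow_left₀`).
`j = s + 1`: trivial. -/
theorem kolmogorov_seq (s : ℕ) : ∃ C : ℝ, 1 ≤ C ∧ ∀ a : ℕ → ℝ, (∀ j, 0 ≤ a j) →
    (∀ j, 1 ≤ j → j < s → a j ^ 2 ≤ 8 * a (j - 1) * a (j + 1)) →
    ∀ j, j ≤ s → a j ^ s ≤ C * a 0 ^ (s - j) * a s ^ j := by
  induction s with
  | zero =>
    refine ⟨1, le_rfl, fun a ha _ j hj => ?_⟩
    obtain rfl : j = 0 := by omega
    simp
  | succ s ih =>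
    obtain ⟨C, hC1, hC⟩ := ih
    have hD1 : (1 : ℝ) ≤ 8 ^ s * C := by
      have h1 : (1 : ℝ) ≤ 8 ^ s := one_le_pow₀ (by norm_num)
      nlinarith
    have hC'1 : (1 : ℝ) ≤ C ^ (s + 1) * (8 ^ s * C) ^ (s + 1) := by
      have h1 : (1 : ℝ) ≤ C ^ (s + 1) := one_le_pow₀ hC1
      have h2 : (1 : ℝ) ≤ (8 ^ s * C) ^ (s + 1) := one_le_pow₀ hD1
      nlinarith
    refine ⟨C ^ (s + 1) * (8 ^ s * C) ^ (s + 1), hC'1, fun a ha hL j hj => ?_⟩
    have hgen : ∀ i, 0 ≤ a 0 ^ (s + 1 - i) * a (s + 1) ^ i := fun i =>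
      mul_nonneg (pow_nonneg (ha 0) _) (pow_nonneg (ha _) _)
    -- the two trivial values of j
    rcases Nat.eq_zero_or_pos j with rfl | hj0
    · have h1 : 0 ≤ a 0 ^ (s + 1) := pow_nonneg (ha 0) _
      rw [pow_zero, mul_one, Nat.sub_zero]
      exact le_mul_of_one_le_left h1 hC'1
    rcases Nat.eq_or_lt_of_le hj with rfl | hj'
    · have h1 : 0 ≤ a (s + 1) ^ (s + 1) := pow_nonneg (ha _) _
      rw [Nat.sub_self, pow_zero, mul_one]
      exact le_mul_of_one_le_left h1 hC'1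
    have hjs : j ≤ s := by omega
    have hs0 : s ≠ 0 := by omega
    have hih := hC a ha (fun i h1 h2 => hL i h1 (by omega))
    rcases (ha s).eq_or_lt with h0 | hpos
    · have h1 := hih j hjs
      rw [← h0, zero_pow (by omega : j ≠ 0), mul_zero] at h1
      have h2 : a j = 0 := by
        have h3 : a j ^ s = 0 := le_antisymm h1 (pow_nonneg (ha j) _)
        exact pow_eq_zero_iff hs0 |>.1 h3
      rw [h2, zero_pow (by omega), mul_assoc]
      exact mul_nonneg (by linarith) (hgen j)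
    · -- the key inequality
      have hkey : a s ^ (s + 1) ≤ 8 ^ s * C * a 0 * a (s + 1) ^ s := by
        have h1 := hL s (by omega) (by omega)
        have h2 := hih (s - 1) (by omega)
        have h3 : s - (s - 1) = 1 := by omega
        rw [h3, pow_one] at h2
        have h4 : (a s ^ 2) ^ s ≤ (8 * a (s - 1) * a (s + 1)) ^ s :=
          pow_le_pow_left₀ (by positivity) h1 s
        have h5 : (8 * a (s - 1) * a (s + 1)) ^ s = 8 ^ s * a (s + 1) ^ s * a (s - 1) ^ s := by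
          rw [mul_pow, mul_pow]
          ring
        have h6 : 8 ^ s * a (s + 1) ^ s * a (s - 1) ^ s ≤
            8 ^ s * a (s + 1) ^ s * (C * a 0 * a s ^ (s - 1)) :=
          mul_le_mul_of_nonneg_left h2 (mul_nonneg (by positivity) (pow_nonneg (ha _) _))
        have h7 : (a s ^ 2) ^ s = a s ^ (s + 1) * a s ^ (s - 1) := by
          rw [← pow_mul, ← pow_add]
          congr 1
          omega
        have h8 : a s ^ (s + 1) * a s ^ (s - 1) ≤
            8 ^ s * C * a 0 * a (s + 1) ^ s * a s ^ (s - 1) := by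
          rw [← h7]
          calc (a s ^ 2) ^ s ≤ 8 ^ s * a (s + 1) ^ s * (C * a 0 * a s ^ (s - 1)) :=
                h4.trans (h5 ▸ h6)
            _ = 8 ^ s * C * a 0 * a (s + 1) ^ s * a s ^ (s - 1) := by ring
        exact le_of_mul_le_mul_right h8 (pow_pos hpos _)
      have hfin : (a j ^ (s + 1)) ^ s ≤
          (C ^ (s + 1) * (8 ^ s * C) ^ (s + 1) * a 0 ^ (s + 1 - j) * a (s + 1) ^ j) ^ s := by
        have h1 : (a j ^ s) ^ (s + 1) ≤ (C * a 0 ^ (s - j) * a s ^ j) ^ (s + 1) :=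
          pow_le_pow_left₀ (pow_nonneg (ha j) _) (hih j hjs) _
        have h2 : (a s ^ (s + 1)) ^ j ≤ (8 ^ s * C * a 0 * a (s + 1) ^ s) ^ j :=
          pow_le_pow_left₀ (pow_nonneg (ha s) _) hkey _
        have h3 : (C * a 0 ^ (s - j) * a s ^ j) ^ (s + 1) =
            C ^ (s + 1) * a 0 ^ ((s - j) * (s + 1)) * (a s ^ (s + 1)) ^ j := by
          rw [mul_pow, mul_pow, ← pow_mul, ← pow_mul, ← pow_mul, mul_comm j (s + 1)]
        have h4 : C ^ (s + 1) * a 0 ^ ((s - j) * (s + 1)) * (a s ^ (s + 1)) ^ j ≤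
            C ^ (s + 1) * a 0 ^ ((s - j) * (s + 1)) * (8 ^ s * C * a 0 * a (s + 1) ^ s) ^ j :=
          mul_le_mul_of_nonneg_left h2 (mul_nonneg (by positivity) (pow_nonneg (ha 0) _))
        have h5 : a 0 ^ ((s - j) * (s + 1)) * a 0 ^ j = (a 0 ^ (s + 1 - j)) ^ s := by
          rw [← pow_add, ← pow_mul]
          congr 1
          obtain ⟨e, rfl⟩ : ∃ e, s = j + e := ⟨s - j, by omega⟩
          have h6 : j + e - j = e := by omega
          have h7 : j + e + 1 - j = e + 1 := by omega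
          rw [h6, h7]
          ring
        have h6 : C ^ (s + 1) * a 0 ^ ((s - j) * (s + 1)) * (8 ^ s * C * a 0 * a (s + 1) ^ s) ^ j =
            C ^ (s + 1) * (8 ^ s * C) ^ j * ((a 0 ^ (s + 1 - j)) ^ s * (a (s + 1) ^ j) ^ s) := by
          rw [← h5, mul_pow, mul_pow, ← pow_mul, ← pow_mul, mul_comm s j]
          ring
        have h7 : C ^ (s + 1) * (8 ^ s * C) ^ j ≤ (C ^ (s + 1) * (8 ^ s * C) ^ (s + 1)) ^ s := by
          calc C ^ (s + 1) * (8 ^ s * C) ^ j ≤ C ^ (s + 1) * (8 ^ s * C) ^ (s + 1) :=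
                mul_le_mul_of_nonneg_left (pow_le_pow_right₀ hD1 (by omega)) (by positivity)
            _ ≤ (C ^ (s + 1) * (8 ^ s * C) ^ (s + 1)) ^ s := le_self_pow₀ hC'1 hs0
        have h8 : 0 ≤ (a 0 ^ (s + 1 - j)) ^ s * (a (s + 1) ^ j) ^ s :=
          mul_nonneg (pow_nonneg (pow_nonneg (ha 0) _) _) (pow_nonneg (pow_nonneg (ha _) _) _)
        calc (a j ^ (s + 1)) ^ s = (a j ^ s) ^ (s + 1) := by
              rw [← pow_mul, ← pow_mul, mul_comm]
          _ ≤ _ := h1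
          _ = _ := h3
          _ ≤ _ := h4
          _ = _ := h6
          _ ≤ (C ^ (s + 1) * (8 ^ s * C) ^ (s + 1)) ^ s *
              ((a 0 ^ (s + 1 - j)) ^ s * (a (s + 1) ^ j) ^ s) := mul_le_mul_of_nonneg_right h7 h8
          _ = _ := by
              rw [mul_pow (_ * a 0 ^ (s + 1 - j)), mul_pow _ (a 0 ^ (s + 1 - j)), mul_assoc]
      have hr : 0 ≤ C ^ (s + 1) * (8 ^ s * C) ^ (s + 1) * a 0 ^ (s + 1 - j) * a (s + 1) ^ j := by
        rw [mul_assoc]
        exact mul_nonneg (by linarith) (hgen j)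
      exact (pow_le_pow_iff_left₀ (pow_nonneg (ha j) _) hr hs0).1 hfin

end Pool.Agent.Lib.H47C
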